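import Pool.Agent.Q5.SG.Stm2
import Pool.Agent.Q128.AR.Sec3

/-!
# Project SG (helper5): assembly
-/

set_option autoImplicit false
set_option linter.unusedSectionVars false

namespace Pool.Agent.Q5.SG

open NumberField IsDedekindDomain Module Pool.Agent.Y18.LC Polynomial Filter Topology

section
variable {p : ℕ} [Fact p.Prime] {K H : Type} [Field K] [NumberField K] [Field H] [NumberField H]
  [Algebra K H]

/-- the Sigma-Leopoldt conjecture for all faithful characters of the Galois group of the subfield of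
degree `p ^ j` over `K` of the cyclic extension `H / K` -/
def LayerHolds (S : Set (K →+* ℂ_[p])) (H : Type) [Field H] [NumberField H] [Algebra K H] (j : ℕ) :
    Prop :=
  ∀ E : IntermediateField K H, finrank K E = p ^ j → ∀ χ : (E ≃ₐ[K] E) →* ℂ_[p]ˣ,
    Function.Injective χ → Pool.Agent.W289.SL.SigmaLeopoldt p K E S χ

/-- the layers `E / K` of a cyclic extension are Galois -/
theorem isGalois_layer [IsGalois K H] (g : H ≃ₐ[K] H) (hg : ∀ h : H ≃ₐ[K] H, h ∈ Subgroup.zpowers g)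
    (E : IntermediateField K H) : IsGalois K E := by
  have hc : ∀ a b : H ≃ₐ[K] H, a * b = b * a := by
    intro a b
    obtain ⟨i, rfl⟩ := Subgroup.mem_zpowers_iff.1 (hg a)
    obtain ⟨j, rfl⟩ := Subgroup.mem_zpowers_iff.1 (hg b)
    rw [← zpow_add, ← zpow_add, add_comm]
  have hn : (E.fixingSubgroup).Normal := by
    refine ⟨fun a ha b => ?_⟩
    rw [hc b a, mul_assoc, mul_inv_cancel, mul_one]
    exact ha
  have h1 : IsGalois K (IntermediateField.fixedField E.fixingSubgroup) :=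
    IsGalois.of_fixedField_normal_subgroup E.fixingSubgroup
  rw [IsGalois.fixedField_fixingSubgroup] at h1
  exact h1

theorem exists_order_p [IsGalois K H] (g : H ≃ₐ[K] H)
    (hg : ∀ h : H ≃ₐ[K] H, h ∈ Subgroup.zpowers g) (E : IntermediateField K H) {j : ℕ} (hj : 1 ≤ j)
    (hE : finrank K E = p ^ j) : ∃ τ : E ≃ₐ[K] E, orderOf τ = p := by
  have := isGalois_layer g hg E
  have h1 : Nat.card (E ≃ₐ[K] E) = p ^ j := by rw [IsGalois.card_aut_eq_finrank, hE]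
  have h2 : p ∣ Nat.card (E ≃ₐ[K] E) := by
    rw [h1]
    exact dvd_pow_self _ (by omega)
  exact exists_prime_orderOf_dvd_card' p h2

end

/-- **Universal part**: the number of the layers which do not satisfy the conjecture is bounded,
uniformly for all `𝔮` with `CondQ` and all `H`. -/
theorem stage1 (hUH : S_UH) (hIN : S_IN) (hCO : S_CO) (hTR : S_TR) (hSL : S_SL)
    (p : ℕ) [Fact p.Prime] (hp : p ≠ 2) (K : Type) [Field K] [NumberField K] (hK : Unram K p)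
    (S : Set (K →+* ℂ_[p])) (hS : PlaceClosed S) (n₀ : ℕ) :
    ∃ W : ℕ, ∀ 𝔮 : HeightOneSpectrum (𝓞 K), (p : 𝓞 K) ∉ 𝔮.asIdeal → CondQ S 𝔮 n₀ →
      ∀ (H : Type) [Field H] [NumberField H] [Algebra K H] [IsGalois K H] (g : H ≃ₐ[K] H) (m : ℕ),
        (∀ h : H ≃ₐ[K] H, h ∈ Subgroup.zpowers g) → finrank K H = p ^ m → RamOut 𝔮 H →
        {j : ℕ | 1 ≤ j ∧ j ≤ m ∧ ¬ LayerHolds S H j}.ncard ≤ W := by
  obtain ⟨B, hB⟩ := hIN p hp K hK S n₀
  obtain ⟨W, hW⟩ := hCO p hp B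
  refine ⟨W, fun 𝔮 h𝔮 hcond H _ _ _ _ g m hg hm hram => ?_⟩
  have hH : Unram H p := hUH p K H hK fun v hv => hram v (fun h => h𝔮 (h ▸ hv))
  obtain ⟨n, hn, hn2⟩ := hW K S n₀ m
  have h1 := hn2 H hH (hB 𝔮 h𝔮 hcond n hn H hH hram) g hg hm
  refine (Set.ncard_le_ncard ?_ ?_).trans h1
  · rintro j ⟨hj1, hj2, hj3⟩
    refine ⟨hj1, hj2, ?_⟩
    by_contra hbad
    apply hj3
    intro E hE χ hχ
    have := isGalois_layer g hg E
    obtain ⟨τ, hτ⟩ := exists_order_p g hg E hj1 hE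
    exact hSL p hp K E S hS τ hτ (hTR p hp K H hH S g hg m n j hm hj1 hj2 hbad E hE τ hτ) χ hχ
  · exact (Set.finite_Icc 1 m).subset fun j hj => ⟨hj.1, hj.2.1⟩

/-! ### Existence of the primes -/

section
variable {p : ℕ} [Fact p.Prime] {K : Type} [Field K] [NumberField K]

/-- an element congruent to `1` modulo `p ^ k` at the primes above `p` is close to `1` -/
theorem cl_of_cong (hVL : S_VL) {k : ℕ} {x : K} (hx : Pool.Agent.Q92.AR.Cong (p ^ k) x) (hk : 1 ≤ k)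
    (σ : K →+* ℂ_[p]) : ‖σ x - 1‖ ≤ ((p : ℝ)⁻¹) ^ k := by
  have hp0 : (p : K) ^ k ≠ 0 := pow_ne_zero _ (Nat.cast_ne_zero.2 (Fact.out : p.Prime).ne_zero)
  have h1 : ‖σ ((x - 1) / (p : K) ^ k)‖ ≤ 1 := by
    apply hVL p K σ
    intro v hv
    have h2 := hx v (by
      rw [Nat.cast_pow]
      exact Ideal.pow_mem_of_mem _ hv _ (by omega))
    rw [map_div₀]
    have h3 : v.valuation K ((p : K) ^ k) ≠ 0 := (Valuation.ne_zero_iff _).2 hp0
    rw [Nat.cast_pow] at h2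
    exact (div_le_one₀ (zero_lt_iff.2 h3)).2 h2
  have h2 : σ x - 1 = σ ((x - 1) / (p : K) ^ k) * (p : ℂ_[p]) ^ k := by
    rw [map_div₀, map_pow, map_natCast, map_sub, map_one, div_mul_cancel₀]
    exact pow_ne_zero _ (Nat.cast_ne_zero.2 (Fact.out : p.Prime).ne_zero)
  have h3 : ‖(p : ℂ_[p])‖ = (p : ℝ)⁻¹ := by
    have h := norm_algebraMap' ℂ_[p] ((p : ℕ) : ℚ_[p])
    rw [map_natCast, Padic.norm_p] at h
    exact h
  rw [h2, norm_mul, norm_pow, h3]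
  exact mul_le_of_le_one_left (by positivity) h1

theorem norm_sub_one_inv {a : ℂ_[p]} {r : ℝ} (h1 : ‖a‖ = 1) (h : ‖a - 1‖ ≤ r) : ‖a⁻¹ - 1‖ ≤ r := by
  have ha : a ≠ 0 := by
    rintro rfl
    rw [norm_zero] at h1
    exact zero_ne_one h1
  have h2 : a⁻¹ - 1 = -(a⁻¹ * (a - 1)) := by
    rw [mul_sub, inv_mul_cancel₀ ha]
    ring
  rw [h2, norm_neg, norm_mul, norm_inv, h1, inv_one, one_mul]
  exact h

end

/-- **Existence of the primes `𝔮` and of the extensions.** -/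
theorem stage2 (hVL : S_VL) (hPS : S_PS) (hCR : S_CR) (hUK : S_UK) (hBT : S_BT) (hCP : S_CP)
    (hTG : S_TG) (hHX : S_HX) (hNR : S_NR)
    (p : ℕ) [Fact p.Prime] (hp : p ≠ 2) (F K : Type) [Field F] [NumberField F]
    [Field K] [NumberField K] [IsTotallyReal F] [IsTotallyComplex K] [Algebra F K]
    (hFK : finrank F K = 2) (hK : Unram K p) (hL : Pool.Agent.H637R2.Leo.Leopoldt F p)
    (S : Set (K →+* ℂ_[p])) (hCM : Pool.Agent.W289.SL.IsCMType p F K S) (hS : PlaceClosed S) :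
    ∃ n₀ : ℕ, ∀ (m : ℕ) (B : Set (HeightOneSpectrum (𝓞 K))), B.Finite →
      ∃ 𝔮 : HeightOneSpectrum (𝓞 K), 𝔮 ∉ B ∧ (p : 𝓞 K) ∉ 𝔮.asIdeal ∧ CondQ S 𝔮 n₀ ∧
      ∃ (H : Type) (_ : Field H) (_ : NumberField H) (_ : Algebra K H) (_ : IsGalois K H)
        (g : H ≃ₐ[K] H) (m' : ℕ), (∀ h : H ≃ₐ[K] H, h ∈ Subgroup.zpowers g) ∧ m ≤ m' ∧
        finrank K H = p ^ m' ∧ RamOut 𝔮 H := by
  have hpp : p.Prime := Fact.out
  obtain ⟨n₁, hn₁⟩ := hUK p hp F K hFK hK hL S hCM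
  set n₀ : ℕ := max n₁ 1 with hn₀
  refine ⟨n₀, fun m B hB => ?_⟩
  obtain ⟨β, hβ0, hβ1, hβ⟩ := hBT p hp F K hFK hK S hCM hS n₀ (le_max_right _ _)
  obtain ⟨γ, hγ1, hγ2⟩ := hCR p K S hS (n₀ + 1) β 1
  -- the norms of `γ`
  have hpinv : ((p : ℝ)⁻¹) < 1 := inv_lt_one_of_one_lt₀ (by exact_mod_cast hpp.one_lt)
  have hpow : ((p : ℝ)⁻¹) ^ (n₀ + 1) < 1 := pow_lt_one₀ (by positivity) hpinv (by omega)
  have hβn : ∀ σ ∈ S, ‖σ (β : K)‖ = 1 := by
    intro σ hσ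
    apply norm_of_sub_one
    refine lt_of_le_of_lt (hβ1 σ hσ) ?_
    rw [pow_one]
    exact hpinv
  have hγS : ∀ σ ∈ S, ‖σ (γ : K) - σ (β : K)‖ ≤ ((p : ℝ)⁻¹) ^ (n₀ + 1) := by
    intro σ hσ
    have := hγ1 σ hσ
    rwa [map_sub] at this
  have hγT : ∀ σ : K →+* ℂ_[p], σ ∉ S → ‖σ (γ : K) - 1‖ ≤ ((p : ℝ)⁻¹) ^ (n₀ + 1) := by
    intro σ hσ
    have := hγ2 σ hσ
    rwa [map_sub, RingOfIntegers.coe_eq_algebraMap (1 : 𝓞 K), map_one, map_one] at this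
  have hγn : ∀ σ : K →+* ℂ_[p], ‖σ (γ : K)‖ = 1 := by
    intro σ
    by_cases hσ : σ ∈ S
    · have h1 : σ (γ : K) = (σ (γ : K) - σ (β : K)) + σ (β : K) := by ring
      rw [h1, IsUltrametricDist.norm_add_eq_max_of_norm_ne_norm, hβn σ hσ, max_eq_right]
      · exact (lt_of_le_of_lt (hγS σ hσ) hpow).le
      · rw [hβn σ hσ]
        exact (lt_of_le_of_lt (hγS σ hσ) hpow).ne
    · exact norm_of_sub_one (lt_of_le_of_lt (hγT σ hσ) hpow)
  have hγ0 : (γ : K) ≠ 0 := by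
    intro h0
    obtain ⟨σ⟩ : Nonempty (K →+* ℂ_[p]) :=
      ⟨(IsAlgClosed.lift (R := ℚ) (S := K) (M := ℂ_[p])).toRingHom⟩
    have := hγn σ
    rw [h0, map_zero, norm_zero] at this
    exact zero_ne_one this
  have hβ0' : (β : K) ≠ 0 := RingOfIntegers.coe_ne_zero_iff.2 hβ0
  set γ' : Kˣ := Units.mk0 (γ : K) hγ0 with hγ'
  set β' : Kˣ := Units.mk0 (β : K) hβ0' with hβ'
  have hval : ∀ v : HeightOneSpectrum (𝓞 K), (p : 𝓞 K) ∈ v.asIdeal → v.valuation K (γ' : K) = 1 := by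
    intro v hv
    obtain ⟨σ, hσ⟩ := hPS p K v hv
    have h1 : γ ∉ v.asIdeal := by
      rw [hσ]
      exact not_lt.2 (hγn σ).ge
    exact (v.valuation_eq_one_iff_notMem (K := K)).2 h1
  -- the complex conjugation
  have hGal : IsGalois F K := by
    have : Algebra.IsQuadraticExtension F K := ⟨hFK⟩
    infer_instance
  obtain ⟨c, hc⟩ : ∃ c : K ≃ₐ[F] K, c ≠ 1 := by
    by_contra hcon
    push Not at hcon
    have h1 : Nat.card (K ≃ₐ[F] K) = 2 := by rw [IsGalois.card_aut_eq_finrank, hFK]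
    have h2 : Subsingleton (K ≃ₐ[F] K) := ⟨fun a b => by rw [hcon a, hcon b]⟩
    have h3 := Nat.card_eq_one_iff_unique.2 ⟨h2, ⟨1⟩⟩
    omega
  -- the target prime
  set B' : Set (HeightOneSpectrum (𝓞 K)) := B ∪ ({v | (p : 𝓞 K) ∈ v.asIdeal} ∪
    {𝔮 : HeightOneSpectrum (𝓞 K) | (Ideal.absNorm 𝔮.asIdeal).Prime ∧
      ¬ Unram K (Ideal.absNorm 𝔮.asIdeal)}) with hB'
  have hfin : {v : HeightOneSpectrum (𝓞 K) | (p : 𝓞 K) ∈ v.asIdeal}.Finite := by
    have h1 : (p : 𝓞 K) ≠ 0 := Nat.cast_ne_zero.2 hpp.ne_zero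
    have h2 := Ideal.finite_factors (R := 𝓞 K) (I := Ideal.span {(p : 𝓞 K)}) (by
      rw [Ne, Ideal.zero_eq_bot, Ideal.span_singleton_eq_bot]
      exact h1)
    refine h2.subset fun v hv => ?_
    rw [Set.mem_ofPred_eq, Ideal.dvd_span_singleton]
    exact hv
  obtain ⟨𝔮, h𝔮, x, hq1, hq2, hq3, hq4, hq5⟩ := hTG p hp K hK (c : K ≃+* K) γ' hval (n₀ + 1)
    (max m 1) (by omega) B' (hB.union (hfin.union (hNR K)))
  rw [hB', Set.mem_union, Set.mem_union, not_or, not_or] at h𝔮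
  have hqp : (p : 𝓞 K) ∉ 𝔮.asIdeal := h𝔮.2.1
  have hqu : Unram K (Ideal.absNorm 𝔮.asIdeal) := by
    by_contra hcon
    exact h𝔮.2.2 ⟨hq1, hcon⟩
  refine ⟨𝔮, h𝔮.1, hqp, ?_, ?_⟩
  · -- `CondQ`
    set π : Kˣ := γ' * (Units.map ((c : K ≃+* K) : K →* K) γ')⁻¹ * x with hπ
    have hvπ : ∀ v : HeightOneSpectrum (𝓞 K), v.valuation K (π : K) =
        WithZero.exp (-(Finsupp.single 𝔮 (1 : ℤ) v)) := by
      intro v
      rw [Pool.Agent.Q128.AR.val_prin, hq5]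
    refine hCP p hp K S n₁ n₀ (le_max_left _ _) (le_max_right _ _) hn₁ β' hβ1
      (fun ε hε j hj => hβ ε hε j hj) 𝔮 π ?_ ?_ ?_
    · rw [hvπ, Finsupp.single_eq_same]
    · intro v hv
      rw [hvπ, Finsupp.single_eq_of_ne hv, neg_zero, WithZero.exp_zero]
    · intro σ hσ
      have hσ' : σ ∈ S := by simpa using hσ
      have h1 : σ ((π : K) / (β' : K)) = (σ (γ : K) / σ (β : K)) * ((σ (c (γ : K)))⁻¹ * σ (x : K)) := by
        rw [map_div₀, hπ, Units.val_mul, Units.val_mul, Units.val_inv_eq_inv_val, map_mul, map_mul,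
          map_inv₀]
        rw [div_mul_eq_mul_div, mul_assoc]
        rfl
      rw [h1]
      have h2 : ‖σ (γ : K) / σ (β : K) - 1‖ ≤ ((p : ℝ)⁻¹) ^ (n₀ + 1) := by
        have hne : σ (β : K) ≠ 0 := by
          rw [Ne, map_eq_zero]
          exact hβ0'
        have h3 : σ (γ : K) / σ (β : K) - 1 = (σ (γ : K) - σ (β : K)) / σ (β : K) := by
          field_simp
        rw [h3, norm_div, hβn σ hσ', div_one]
        exact hγS σ hσ'
      have h3 : ‖σ (c (γ : K)) - 1‖ ≤ ((p : ℝ)⁻¹) ^ (n₀ + 1) :=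
        hγT (σ.comp (c : K →+* K)) ((hCM c hc σ).1 hσ')
      have h4 : ‖σ (c (γ : K))‖ = 1 := hγn (σ.comp (c : K →+* K))
      have h5 : ‖σ (x : K) - 1‖ ≤ ((p : ℝ)⁻¹) ^ (n₀ + 1) := cl_of_cong hVL hq4 (by omega) σ
      refine norm_mul_sub_one ?_ h2 (norm_mul_sub_one ?_ (norm_sub_one_inv h4 h3) h5)
      · rw [norm_div, hγn, hβn σ hσ', div_one]
      · rw [norm_inv, h4, inv_one]
  · obtain ⟨H, i1, i2, i3, i4, g, m', hg, hm', hd, hr⟩ :=
      hHX p K 𝔮 (max m 1) (le_max_right _ _) hq1 hqu hq2 hq3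
    exact ⟨H, i1, i2, i3, i4, g, m', hg, (le_max_left _ _).trans hm', hd, hr⟩

end Pool.Agent.Q5.SG
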