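import Pool.Agent.Q20.EX.Stm2
import Pool.Agent.Y18.LC.Good
import Pool.Agent.Y18.LC.Stm4
import Pool.Agent.W289.SL.Emb

/-!
# Project SG (helper5): the Sigma-Leopoldt conjecture for characters ramified at one prime

Definitions.  `K` is a number field, `S` a set of embeddings of `K` in `ℂ_p`; an embedding of an
extension of `K` lies above `S` if its restriction to `K` belongs to `S`.
-/

set_option autoImplicit false
set_option linter.unusedSectionVars false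

namespace Pool.Agent.Q5.SG

open NumberField IsDedekindDomain Pool.Agent.Y18.LC

section
variable {p : ℕ} [Fact p.Prime] {K E : Type} [Field K] [Field E] [Algebra K E]

/-- `x` is `p ^ n`-close to `1` at all embeddings above `S` -/
def Cl (S : Set (K →+* ℂ_[p])) (n : ℕ) (x : E) : Prop :=
  ∀ σ : E →+* ℂ_[p], σ.comp (algebraMap K E) ∈ S → ‖σ x - 1‖ ≤ ((p : ℝ)⁻¹) ^ n

/-- `S` is a union of sets of embeddings belonging to places of `K` above `p`: with `σ` it contains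
all embeddings which define the same absolute value on `K` -/
def PlaceClosed (S : Set (K →+* ℂ_[p])) : Prop :=
  ∀ σ ∈ S, ∀ τ : K →+* ℂ_[p], (∀ x : K, ‖τ x‖ = ‖σ x‖) → τ ∈ S

theorem Cl.mono {S : Set (K →+* ℂ_[p])} {n k : ℕ} {x : E} (h : Cl S n x) (hk : k ≤ n) : Cl S k x := by
  intro σ hσ
  refine (h σ hσ).trans ?_
  have hp : (1 : ℝ) ≤ p := by exact_mod_cast (Fact.out : p.Prime).one_lt.le
  exact pow_le_pow_of_le_one (by positivity) (inv_le_one_of_one_le₀ hp) hk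

theorem Cl.one {S : Set (K →+* ℂ_[p])} {n : ℕ} : Cl S n (1 : E) := by
  intro σ _
  rw [map_one, sub_self, norm_zero]
  positivity

theorem norm_mul_sub_one {a b : ℂ_[p]} {r : ℝ} (ha : ‖a‖ ≤ 1) (h1 : ‖a - 1‖ ≤ r) (h2 : ‖b - 1‖ ≤ r) :
    ‖a * b - 1‖ ≤ r := by
  have h3 : a * b - 1 = a * (b - 1) + (a - 1) := by ring
  rw [h3]
  refine (IsUltrametricDist.norm_add_le_max _ _).trans (max_le ?_ h1)
  rw [norm_mul]
  exact (mul_le_of_le_one_left (norm_nonneg _) ha).trans h2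

theorem Cl.mul {S : Set (K →+* ℂ_[p])} {n : ℕ} {x y : E} (hx : Cl S n x) (hy : Cl S n y)
    (h : ∀ σ : E →+* ℂ_[p], σ.comp (algebraMap K E) ∈ S → ‖σ x‖ ≤ 1) : Cl S n (x * y) := by
  intro σ hσ
  rw [map_mul]
  exact norm_mul_sub_one (h σ hσ) (hx σ hσ) (hy σ hσ)

theorem norm_of_sub_one {a : ℂ_[p]} (h : ‖a - 1‖ < 1) : ‖a‖ = 1 := by
  have h1 : a = (a - 1) + 1 := by ring
  rw [h1, IsUltrametricDist.norm_add_eq_max_of_norm_ne_norm (by rw [norm_one]; exact h.ne), norm_one,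
    max_eq_right h.le]

end

section
variable {p : ℕ} [Fact p.Prime] {K E : Type} [Field K] [NumberField K] [Field E] [NumberField E]
  [Algebra K E]

theorem norm_int_le (σ : E →+* ℂ_[p]) (a : 𝓞 E) : ‖σ (a : E)‖ ≤ 1 :=
  Pool.Agent.W289.SL.norm_emb_le σ a

theorem norm_eq_one_of_EU (σ : E →+* ℂ_[p]) {u : Eˣ} (hu : u ∈ EU E) : ‖σ (u : E)‖ = 1 := by
  obtain ⟨e, he⟩ := mem_EU.1 hu
  rw [← he]
  exact Pool.Agent.W289.SL.norm_emb_unit σ e

/-- the units of `E` which are `p ^ n`-close to `1` above `S` -/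
noncomputable def CU (S : Set (K →+* ℂ_[p])) (E : Type) [Field E] [NumberField E] [Algebra K E]
    (n : ℕ) : Subgroup Eˣ where
  carrier := {u | u ∈ EU E ∧ Cl S n (u : E)}
  mul_mem' := by
    rintro a b ⟨ha, ha'⟩ ⟨hb, hb'⟩
    exact ⟨mul_mem ha hb, ha'.mul hb' fun σ _ => (norm_eq_one_of_EU σ ha).le⟩
  one_mem' := ⟨one_mem _, Cl.one⟩
  inv_mem' := by
    rintro a ⟨ha, ha'⟩
    refine ⟨inv_mem ha, fun σ hσ => ?_⟩
    have h1 : σ ((a⁻¹ : Eˣ) : E) - 1 = - (σ ((a⁻¹ : Eˣ) : E) * (σ (a : E) - 1)) := by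
      rw [mul_sub, ← map_mul, Units.inv_mul, map_one]
      ring
    rw [h1, norm_neg, norm_mul, norm_eq_one_of_EU σ (inv_mem ha), one_mul]
    exact ha' σ hσ

theorem mem_CU {S : Set (K →+* ℂ_[p])} {n : ℕ} {u : Eˣ} :
    u ∈ CU S E n ↔ u ∈ EU E ∧ Cl S n (u : E) := Iff.rfl

/-- the `p ^ n`-th powers of the units which are `p`-close to `1` above `S` -/
noncomputable def CV (S : Set (K →+* ℂ_[p])) (E : Type) [Field E] [NumberField E] [Algebra K E]
    (n : ℕ) : Subgroup Eˣ := (CU S E 1).map (powMonoidHom (p ^ n))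

theorem mem_CV {S : Set (K →+* ℂ_[p])} {n : ℕ} {u : Eˣ} :
    u ∈ CV S E n ↔ ∃ w ∈ CU S E 1, w ^ p ^ n = u := Iff.rfl

/-- Layer `j` of the cyclic extension `E/K`, with generator `g` of the Galois group, is bad at level
`n`: there is a unit `z` of the field of degree `p ^ j` over `K`, of relative norm `1` over the field
of degree `p ^ (j - 1)`, which is `p ^ (n + 1)`-close to `1` above `S` but not the `p`-th power of a
unit which is `p`-close to `1`. -/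
def Bad (S : Set (K →+* ℂ_[p])) (g : E ≃ₐ[K] E) (n j : ℕ) : Prop :=
  ∃ z ∈ CU S E (n + 1), g ^ p ^ j • z = z ∧
    ∏ i ∈ Finset.range p, g ^ (i * p ^ (j - 1)) • z = 1 ∧ ∀ w ∈ CU S E 1, w ^ p ≠ z

/-- the elements of `Kˣ` whose divisor is supported at `𝔮` -/
def QU (𝔮 : HeightOneSpectrum (𝓞 K)) : Subgroup Kˣ where
  carrier := {x | ∀ v : HeightOneSpectrum (𝓞 K), v ≠ 𝔮 → v.valuation K (x : K) = 1}
  mul_mem' {a b} ha hb v hv := by rw [Units.val_mul, map_mul, ha v hv, hb v hv, mul_one]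
  one_mem' v _ := by rw [Units.val_one, map_one]
  inv_mem' {a} ha v hv := by rw [Units.val_inv_eq_inv_val, map_inv₀, ha v hv, inv_one]

theorem mem_QU {𝔮 : HeightOneSpectrum (𝓞 K)} {x : Kˣ} :
    x ∈ QU 𝔮 ↔ ∀ v : HeightOneSpectrum (𝓞 K), v ≠ 𝔮 → v.valuation K (x : K) = 1 := Iff.rfl

/-- the condition on the prime `𝔮`: the `𝔮`-units of `K` which are `p ^ (n₀ + 1)`-close to `1` above `S`
are `p`-th powers -/
def CondQ (S : Set (K →+* ℂ_[p])) (𝔮 : HeightOneSpectrum (𝓞 K)) (n₀ : ℕ) : Prop :=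
  ∀ a ∈ QU 𝔮, Cl S (n₀ + 1) (a : K) → ∃ b : Kˣ, b ^ p = a

/-- Relative units which are sufficiently close to `1` above `S` are `p ^ s`-th powers of units; `τ` is
an automorphism of order `p`. -/
def TopRel (S : Set (K →+* ℂ_[p])) (τ : E ≃ₐ[K] E) : Prop :=
  ∀ s : ℕ, ∃ M : ℕ, ∀ u ∈ CU S E M, ∏ i ∈ Finset.range p, τ ^ i • u = 1 →
    ∃ w ∈ EU E, w ^ p ^ s = u

/-- all primes of `K` except `𝔮` are unramified in `E` -/
def RamOut (𝔮 : HeightOneSpectrum (𝓞 K)) (E : Type) [Field E] [NumberField E] [Algebra K E] : Prop :=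
  ∀ v : HeightOneSpectrum (𝓞 K), v ≠ 𝔮 → Pool.Agent.Q92.AR.Unramified E v

/-- `𝔮` is totally ramified in `E` -/
def TotRam (𝔮 : HeightOneSpectrum (𝓞 K)) (E : Type) [Field E] [NumberField E] [Algebra K E] : Prop :=
  ∃ 𝔓 : HeightOneSpectrum (𝓞 E), 𝔓.under (𝓞 K) = 𝔮 ∧
    (∀ 𝔓' : HeightOneSpectrum (𝓞 E), 𝔓'.under (𝓞 K) = 𝔮 → 𝔓' = 𝔓) ∧
    ∀ x : 𝓞 E, ∃ y : 𝓞 K, x - algebraMap (𝓞 K) (𝓞 E) y ∈ 𝔓.asIdeal

end

end Pool.Agent.Q5.SG
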