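import Pool.Agent.Q5.SG.Defs

/-!
# Project SG (helper5): the Sigma-Leopoldt conjecture for characters ramified at one prime

GOAL.  Let `K/F` be a CM field (`F` totally real), `p` odd and unramified in `K`, `S` a CM type of `K` with
values in `ℂ_p` which is a union of places (`p`-ordinary), and assume Leopoldt's conjecture for `F` and
`p` (a theorem if `F/ℚ` is abelian).  There is a `W` such that for infinitely many primes `𝔮` of `K` there
are cyclic extensions `H/K` of arbitrarily large `p`-power degree, ramified only at `𝔮`, such that the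
Sigma-Leopoldt conjecture holds for all faithful characters of all layers of `H/K` but at most `W`.

The notations are in `Pool.Agent.Q5.SG.Defs` (`Cl`, `CU`, `CV`, `Bad`, `QU`, `CondQ`, `TopRel`, `RamOut`,
`TotRam`), `Pool.Agent.Y18.LC` (`EU`, `Unram`, lemmas on units in `Grp`, `Inv`, `Inv2`, `Good`, `Core`) and
`Pool.Agent.Q92.AR.Def` (divisors, Artin map).  Everything in `Pool.Agent.Q92.AR.All` and
`Pool.Agent.Q20.EX.All` is proved and may be used (Artin reciprocity `recip`, Chebotarev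
`Pool.Agent.Q14.AR.cheb`, existence theorem `all_EXI`, ...).
In Part A-C all is elementary.
-/

set_option autoImplicit false
set_option linter.unusedSectionVars false

namespace Pool.Agent.Q5.SG

open NumberField IsDedekindDomain Module Pool.Agent.Y18.LC Polynomial Filter Topology

/-! ## Part A: absolute values -/

/-- JOB SG-SM.  If `p` is unramified, an element of norm `< 1` has norm `≤ 1/p`.
Proof.  `P = {a ∈ 𝓞 E : ‖σ a‖ < 1}` is a prime ideal containing `p` (`norm_int_le`).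
(1) There is a `c ∈ 𝓞 E`, `c ∉ P`, with `c P ⊆ (p)`: take `c` in all the other prime ideals containing `p`
(finitely many, pairwise comaximal) but not in `P`; for `a ∈ P` the product `a c` lies in all primes
containing `p`, that is in the radical of `(p)`, which is `(p)`.  So `‖σ a‖ = ‖σ (a c)‖ ≤ ‖p‖ = 1/p`.
(2) Every `x ∈ E` with `‖σ x‖ < 1` is `a / b` with `a, b ∈ 𝓞 E`, `b ∉ P` (then `a ∈ P`, `‖σ b‖ = 1`): let `v` be the
valuation of `P`.  If `v(x) ≤ 1` this is the description of the localization at `P` (Mathlib; or: write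
`x = a / b`, and multiply `a`, `b` by an element of `J`, `J P^k = (b)`, `J` prime to `P`, ...).  If `v(x) > 1` then
`1/x = a / b` with `a ∈ P`, `b ∉ P`, so `‖σ (1/x)‖ < 1`, a contradiction. -/
def S_SM : Prop := ∀ (p : ℕ) [Fact p.Prime] (E : Type) [Field E] [NumberField E], Unram E p →
  ∀ (σ : E →+* ℂ_[p]) (x : E), ‖σ x‖ < 1 → ‖σ x‖ ≤ (p : ℝ)⁻¹

/-- JOB SG-PW.  Distance from `1` of `p`-powers.
Proof (for `s = 1`, then induction).  `z = 1 + y`, `‖y‖ ≤ 1/p`; `z^p - 1 = y (p + C(p,2) y + ... + y^(p-1))`.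
The terms `C(p,i) y^(i-1)`, `2 ≤ i ≤ p-1`, have norm `≤ p^(-2)`, and `‖y^(p-1)‖ ≤ p^(-(p-1)) ≤ p^(-2)` since
`p ≥ 3`; so the bracket has norm exactly `1/p`. -/
def S_PW : Prop := ∀ (p : ℕ) [Fact p.Prime], p ≠ 2 → ∀ (z : ℂ_[p]), ‖z - 1‖ ≤ (p : ℝ)⁻¹ →
  ∀ s : ℕ, ‖z ^ p ^ s - 1‖ = ((p : ℝ)⁻¹) ^ s * ‖z - 1‖

/-- JOB SG-RT.  Proof (`s = 1`, then induction).  `(z - 1)^p = z^p - 1 + p (...)` with `‖...‖ ≤ 1`
(`(-1)^p = -1`, or `p = 2` and `1 = -1 + 2`), so `‖z - 1‖^p ≤ max (‖z^p - 1‖, 1/p) < 1`. -/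
def S_RT : Prop := ∀ (p : ℕ) [Fact p.Prime] (z : ℂ_[p]), ‖z‖ ≤ 1 → ∀ s : ℕ,
  ‖z ^ p ^ s - 1‖ < 1 → ‖z - 1‖ < 1

/-- JOB SG-FE.  Fermat.
Proof.  `f = ∏ (N(P) - 1)` over the primes `P ∋ p` of `𝓞 E` (finitely many); it is prime to `p`.  For `σ` let
`P = {a ∈ 𝓞 E : ‖σ a‖ < 1}`; `x = a / b` with `a, b ∈ 𝓞 E \ P` (as in SG-SM (2)), and `a^f ≡ 1 ≡ b^f mod P` (Fermat in
the finite field `𝓞 E / P`), so `‖σ a^f - 1‖, ‖σ b^f - 1‖ < 1`. -/
def S_FE : Prop := ∀ (p : ℕ) [Fact p.Prime] (E : Type) [Field E] [NumberField E], ∃ f : ℕ,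
  f.Coprime p ∧ ∀ (σ : E →+* ℂ_[p]) (x : E), ‖σ x‖ = 1 → ‖σ x ^ f - 1‖ < 1

/-- JOB SG-VL.  Valuations and norms.
Proof.  `P = {a ∈ 𝓞 E : ‖σ a‖ < 1}` is a prime containing `p`, let `v` be the corresponding point; `v(x) ≤ 1`, so
`x = a / b` with `b ∉ P`, `‖σ b‖ = 1`, `‖σ a‖ ≤ 1`. -/
def S_VL : Prop := ∀ (p : ℕ) [Fact p.Prime] (E : Type) [Field E] [NumberField E] (σ : E →+* ℂ_[p])
  (x : E), (∀ v : HeightOneSpectrum (𝓞 E), (p : 𝓞 E) ∈ v.asIdeal → v.valuation E x ≤ 1) → ‖σ x‖ ≤ 1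

/-- JOB SG-PS.  The primes above `p` come from embeddings.
Proof.  Compare the library (`Pool.Agent.W289.SL`, `Pool.Agent.Y447.LC`, `Pool.Agent.H637R2`; search for
`HeightOneSpectrum` and `ℂ_[`).  One proof: the completion of `E` at `v` is a finite extension of `ℚ_p`
(the closure of `ℚ`), so it embeds in `ℂ_p` isometrically.  Another one without completions: the primes
`P_σ = {a : ‖σ a‖ < 1}` for all `σ`; suppose `P ∋ p` is different from all of them.  By the Chinese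
remainder theorem there is an `a ∈ 𝓞 E` with `a ∈ P`, `a ∉ P_σ` for all `σ`.  The norm of `a` over `ℚ` is
divisible by `p` (`a ∈ P`), but it is the product of the `σ a` (over all embeddings `σ : E → ℂ_p`, `ℂ_p` is
algebraically closed) which have norm `1`; a contradiction. -/
def S_PS : Prop := ∀ (p : ℕ) [Fact p.Prime] (E : Type) [Field E] [NumberField E]
  (v : HeightOneSpectrum (𝓞 E)), (p : 𝓞 E) ∈ v.asIdeal →
  ∃ σ : E →+* ℂ_[p], ∀ x : 𝓞 E, x ∈ v.asIdeal ↔ ‖σ (x : E)‖ < 1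

/-- JOB SG-AB.  Embeddings with the same prime have the same absolute value.
Proof.  `P = {a : ‖σ a‖ < 1} ⊆ {a : ‖τ a‖ < 1}`, both are primes containing `p`, so they are equal (maximal).
Let `v` be the valuation, `ϖ ∈ E` with `v(ϖ)` a generator (order `1`), `e` the order of `p`.  If `v(u) = 1` then
`u = a / b` with `a, b ∉ P`, so `‖σ u‖ = 1 = ‖τ u‖`.  So `‖σ ϖ‖^e = ‖p‖ = ‖τ ϖ‖^e`, hence `‖σ ϖ‖ = ‖τ ϖ‖`, and every
`x ≠ 0` is `ϖ^k u`. -/
def S_AB : Prop := ∀ (p : ℕ) [Fact p.Prime] (E : Type) [Field E] [NumberField E]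
  (σ τ : E →+* ℂ_[p]), (∀ x : 𝓞 E, ‖σ (x : E)‖ < 1 → ‖τ (x : E)‖ < 1) → ∀ x : E, ‖τ x‖ = ‖σ x‖

/-- JOB SG-CR.  Chinese remainder theorem for a place-closed set of embeddings.
Proof.  `I = ∏ P_σ` over the different primes `P_σ = {a : ‖σ a‖ < 1}`, `σ ∈ S`, `J` the same for `σ ∉ S`; they are
comaximal, since a prime `P_σ = P_τ` with `σ ∈ S`, `τ ∉ S` would give `τ ∈ S` by `S_AB` and `PlaceClosed`.
For `n` large (`n = k e`, `e` bigger than all ramification indices: `P_σ^e ⊆ (p) + ...`; simply: for `a ∈ P_σ`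
one has `‖σ a‖ ≤ r < 1` with one `r` for all `a` and `σ`, as `P_σ` is finitely generated, so `‖σ a‖ ≤ r^n` for
`a ∈ P_σ^n`) choose `x ≡ a mod I^n`, `x ≡ b mod J^n`. -/
def S_CR : Prop := ∀ (p : ℕ) [Fact p.Prime] (E : Type) [Field E] [NumberField E]
  (S : Set (E →+* ℂ_[p])), PlaceClosed S → ∀ (k : ℕ) (a b : 𝓞 E), ∃ x : 𝓞 E,
  (∀ σ ∈ S, ‖σ ((x : E) - (a : E))‖ ≤ ((p : ℝ)⁻¹) ^ k) ∧
  ∀ σ, σ ∉ S → ‖σ ((x : E) - (b : E))‖ ≤ ((p : ℝ)⁻¹) ^ k

/-- what the job CR has to prove -/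
def J_CR : Prop := S_AB → S_CR

/-- JOB SG-EX.  Closeness in a tower: every embedding of `E` extends to `H` (`ℂ_p` is algebraically
closed, `H/E` is algebraic). -/
def S_EX : Prop := ∀ (p : ℕ) [Fact p.Prime] (K E H : Type) [Field K] [Field E] [NumberField E]
  [Field H] [NumberField H] [Algebra K E] [Algebra E H] [Algebra K H] [IsScalarTower K E H]
  (S : Set (K →+* ℂ_[p])) (n : ℕ) (x : E), Cl S n (algebraMap E H x) ↔ Cl S n x

/-! ## Part B: the invariants of the group of units close to `1` -/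

/-- JOB SG-CQ.  Elements whose divisor is divisible by `N` outside `𝔮` (compare `Pool.Agent.Y18.LC.CLS` and
its proof).
Proof.  For `a` as in the statement the divisor of `a` is `s 𝔮 + N D`, `D` a divisor (choose `D` without
`𝔮`).  For each class of the class group which is the class of such a `D` choose one `a`: these are the
elements of `T`.  If `a`, `t ∈ T` have `D`, `D'` in the same class, `D - D'` is the divisor of `b`, and the divisor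
of `η = a / (t b^N)` is supported at `𝔮`. -/
def S_CQ : Prop := ∀ (K : Type) [Field K] [NumberField K] (𝔮 : HeightOneSpectrum (𝓞 K)) (N : ℕ),
  1 ≤ N → ∃ T : Finset Kˣ, T.card ≤ Nat.card (ClassGroup (𝓞 K)) ∧
    ∀ a : Kˣ, (∀ v : HeightOneSpectrum (𝓞 K), v ≠ 𝔮 → ∃ j : ℤ,
      v.valuation K (a : K) = WithZero.exp (N * j)) →
      ∃ t ∈ T, ∃ η ∈ QU 𝔮, ∃ b : Kˣ, a = t * η * b ^ N

/-- JOB SG-QF.  The group of the `𝔮`-units modulo `N`-th powers has bounded order, uniformly in `𝔮`.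
Proof.  Let `T₀` be a finite set of representatives of the units of `𝓞 K` modulo `N`-th powers of units
(finitely generated), `B = N * #T₀`.  The orders at `𝔮` of the elements of `QU 𝔮` form a subgroup `c ℤ` of `ℤ`;
choose `ϖ ∈ QU 𝔮` of order `c` (`ϖ = 1` if `c = 0`).  Every `η ∈ QU 𝔮` is `u ϖ^i`, `u` a unit; `T = {τ ϖ^i : τ ∈ T₀,
0 ≤ i < N}`. -/
def S_QF : Prop := ∀ (K : Type) [Field K] [NumberField K] (N : ℕ), 1 ≤ N → ∃ B : ℕ,
  ∀ 𝔮 : HeightOneSpectrum (𝓞 K), ∃ T : Finset Kˣ, T.card ≤ B ∧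
    ∀ η ∈ QU 𝔮, ∃ τ ∈ T, ∃ θ ∈ QU 𝔮, η = τ * θ ^ N

/-- JOB SG-IT.  Iteration of `CondQ`.
Proof.  Induction on `s`.  `a = b^p` by `CondQ` (`Cl.mono`).  `b ∈ QU 𝔮` (valuations).  For `σ ∈ S` (note that
`σ.comp (algebraMap K K) = σ`) `‖σ a‖ = 1` (`norm_of_sub_one`), so `‖σ b‖ = 1`, `‖σ b - 1‖ < 1` (`S_RT`), `≤ 1/p`
(`S_SM` for `x = b - 1`), and `‖σ b - 1‖ = p ‖σ a - 1‖` (`S_PW`).  So `b` is `p^(n₀ + s - 1)`-close; if `s = 1` we are
done, otherwise `n₀ + s - 1 = n₀ + (s-1)` with `s - 1 ≥ 1` and the induction hypothesis gives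
`b = c^(p^(s-1))`. -/
def S_IT : Prop := ∀ (p : ℕ) [Fact p.Prime], p ≠ 2 →
  ∀ (K : Type) [Field K] [NumberField K], Unram K p → ∀ (S : Set (K →+* ℂ_[p]))
  (𝔮 : HeightOneSpectrum (𝓞 K)) (n₀ : ℕ), CondQ S 𝔮 n₀ → ∀ (s : ℕ), 1 ≤ s → ∀ a ∈ QU 𝔮,
  Cl S (n₀ + s) (a : K) → ∃ b ∈ QU 𝔮, b ^ p ^ s = a

/-- what the job IT has to prove -/
def J_IT : Prop := S_SM → S_PW → S_RT → S_IT

/-- JOB SG-HB.  Hilbert 90 (compare `Pool.Agent.Y18.LC.inv1`).
Proof.  The `y_g` are unique (no `p`-torsion in the units, `root_unique`), so they are a cocycle, and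
`y_g = g c / c` (`groupCohomology.isMulCoboundary₁_of_isMulCocycle₁_of_aut_to_units`).  `u / c^(p^n)` is fixed by
the Galois group, so it is an element `a` of `K`. -/
def S_HB : Prop := ∀ (p : ℕ) [Fact p.Prime], p ≠ 2 → ∀ (K H : Type) [Field K] [NumberField K]
  [Field H] [NumberField H] [Algebra K H] [IsGalois K H], Unram H p → ∀ (n : ℕ) (u : Hˣ),
  (∀ g : H ≃ₐ[K] H, ∃ y ∈ EU H, y ^ p ^ n = g • u / u) →
  ∃ (a : Kˣ) (c : Hˣ), Units.map (algebraMap K H).toMonoidHom a * c ^ p ^ n = u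

/-- JOB SG-DV.  Proof.  Let `w` be a prime of `H` above `v`; its ramification index is `1`, so
`w.valuation (algebraMap a) = v.valuation a` (Mathlib: `valuation_comap` or `valuation_liesOver`, with
the ramification index).  Since `w(u) = 1` (`val_EU`), `v(a) = w(c)^(-N)` (compare `Pool.Agent.Y18.LC.inv2`). -/
def S_DV : Prop := ∀ (K H : Type) [Field K] [NumberField K] [Field H] [NumberField H] [Algebra K H]
  (v : HeightOneSpectrum (𝓞 K)), Pool.Agent.Q92.AR.Unramified H v → ∀ u ∈ EU H,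
  ∀ (a : Kˣ) (c : Hˣ) (N : ℕ), Units.map (algebraMap K H).toMonoidHom a * c ^ N = u →
  ∃ j : ℤ, v.valuation K (a : K) = WithZero.exp (N * j)

/-- JOB SG-UH.  Proof.  The ideal `(p)` of `𝓞 K` is radical: a product of different primes `v`.  If `(p)` is
not radical in `𝓞 H` then `w^2 ∣ p 𝓞 H` for some prime `w` of `H` (factorization); let `v` be the prime below
`w`; `p 𝓞 H = ∏ v' 𝓞 H`, and `w` does not divide `v' 𝓞 H` for `v' ≠ v`, so `w^2 ∣ v 𝓞 H`, a contradiction. -/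
def S_UH : Prop := ∀ (p : ℕ) [Fact p.Prime] (K H : Type) [Field K] [NumberField K]
  [Field H] [NumberField H] [Algebra K H], Unram K p →
  (∀ v : HeightOneSpectrum (𝓞 K), (p : 𝓞 K) ∈ v.asIdeal → Pool.Agent.Q92.AR.Unramified H v) →
  Unram H p

/-- JOB SG-RC.  Roots of close units: if the `p^n`-th power of `ω` is a unit which is `p`-close to `1` above `S`,
so is `ω`.  Proof: `of_pow_EU`; `‖σ ω‖ = 1`, `S_RT`, and `S_SM` for `x = ω - 1`. -/
def S_RC : Prop := ∀ (p : ℕ) [Fact p.Prime] (K H : Type) [Field K] [NumberField K]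
  [Field H] [NumberField H] [Algebra K H], Unram H p → ∀ (S : Set (K →+* ℂ_[p])) (n : ℕ) (ω : Hˣ),
  ω ^ p ^ n ∈ CU S H 1 → ω ∈ CU S H 1

/-- what the job RC has to prove -/
def J_RC : Prop := S_SM → S_RT → S_RC

/-- JOB SG-IN.  **The number of the invariants of `CU (n+1) / CV n`**, independent of `𝔮`, `n`, `H`.
Proof.  `B = h * B'`, `h` the class number, `B'` from `S_QF` for `N' = p^n₀`.  Let `n ≥ n₀`, `s = n + 1 - n₀ ≥ 1`,
`I = {u ∈ CU (n+1) : g u / u ∈ CV n for all g}` (a subgroup, as in `Pool.Agent.Y18.LC.inv_reps`).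
(1) For `u ∈ I`, `u = a c^(p^n)` with `a ∈ Kˣ` (`S_HB`), the order of `a` at `v ≠ 𝔮` is divisible by `p^n`
(`S_DV`), so `a = t η b^(p^n)` (`S_CQ`), `t ∈ T`, `#T ≤ h`, `η ∈ QU 𝔮`: `u = t η ω^(p^n)`, `ω ∈ Hˣ`.
By `rep_lemma` there is a set `R₁ ⊆ I`, `#R₁ ≤ h`, such that for all `u ∈ I` there is an `r ∈ R₁` with
`u / r ∈ I₁ = {u ∈ CU (n+1) : ∃ η ∈ QU 𝔮, ∃ ω ∈ Hˣ, u = η ω^(p^n)}` (a subgroup).
(2) Let `u = η ω^(p^n) ∈ I₁`.  For all embeddings `σ` of `H`, `‖σ η‖ = 1` (`S_VL` for `η` and `1/η`, as `𝔮 ∤ p`) and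
`‖σ u‖ = 1`, so `‖σ ω‖ = 1`.  With `f` from `S_FE` for `H`, `‖σ ω^f - 1‖ < 1`, so `≤ 1/p` (`S_SM` for `H`), and
`‖σ ω^(f p^n) - 1‖ ≤ p^(-(n+1))` (`S_PW`).  `u^f` is `p^(n+1)`-close to `1` above `S`, hence so is
`η^f = u^f / ω^(f p^n)`, in `H` and (`S_EX`) in `K`.  By `S_IT`, as `n + 1 = n₀ + s`, `η^f = b^(p^s)` with
`b ∈ QU 𝔮`; `x f + y p^s = 1` gives `η = (b^x η^y)^(p^s) = η'^(p^s)`, `η' ∈ QU 𝔮`.  By `S_QF`,
`η' = τ θ^(p^n₀)`, `τ ∈ T'`, `#T' ≤ B'`, so `η = τ^(p^s) θ^(p^(n+1))` and `u = τ^(p^s) ω'^(p^n)`, `ω' = θ^p ω`.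
If `u, u' ∈ I₁` have the same `τ` then `u / u' = ω^(p^n)` for an `ω ∈ Hˣ`, and `ω ∈ CU 1` by `S_RC` (`CU (n+1)` is
contained in `CU 1`), so `u / u' ∈ CV n`.  By `rep_lemma` there is an `R₂` with `#R₂ ≤ B'` such that for all
`u ∈ I₁` there is an `r ∈ R₂` with `u / r ∈ CV n`.  `R = R₁ R₂`. -/
def S_IN : Prop := ∀ (p : ℕ) [Fact p.Prime], p ≠ 2 → ∀ (K : Type) [Field K] [NumberField K], Unram K p →
  ∀ (S : Set (K →+* ℂ_[p])) (n₀ : ℕ), ∃ B : ℕ, ∀ 𝔮 : HeightOneSpectrum (𝓞 K),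
  (p : 𝓞 K) ∉ 𝔮.asIdeal → CondQ S 𝔮 n₀ → ∀ n : ℕ, n₀ ≤ n → ∀ (H : Type) [Field H] [NumberField H]
  [Algebra K H] [IsGalois K H], Unram H p → RamOut 𝔮 H → ∃ R : Finset Hˣ, R.card ≤ B ∧
    ∀ u ∈ CU S H (n + 1), (∀ g : H ≃ₐ[K] H, g • u / u ∈ CV S H n) → ∃ r ∈ R, u / r ∈ CV S H n

/-- what the job IN has to prove -/
def J_IN : Prop := S_SM → S_PW → S_RT → S_FE → S_VL → S_EX → S_CQ → S_QF → S_IT → S_HB → S_DV → S_RC → S_IN

/-- JOB SG-FN.  Finiteness of `CU 1 / CV n` (compare `Pool.Agent.Y18.LC.finite_reps`).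
Proof.  The unit group is finitely generated, so it is finite modulo `p^n`-th powers.  If `u, u' ∈ CU 1` have
`u / u' = w^(p^n)` with a unit `w`, then `w ∈ CU 1` by `S_RC`. -/
def S_FN : Prop := ∀ (p : ℕ) [Fact p.Prime] (K H : Type) [Field K]
  [NumberField K] [Field H] [NumberField H] [Algebra K H], Unram H p →
  ∀ (S : Set (K →+* ℂ_[p])) (n : ℕ), ∃ R : Finset Hˣ, ∀ u ∈ CU S H 1, ∃ r ∈ R, u / r ∈ CV S H n

/-- what the job FN has to prove -/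
def J_FN : Prop := S_SM → S_RT → S_RC → S_FN

/-! ## Part C: algebra -/

/-- JOB SG-CY.  Cyclotomic integers, in terms of polynomials, `Φ = Φ_{p^j}`: either `f(ζ)` is divisible by
`p^N`, or some multiple of `f(ζ)` is an integer exactly divisible by `p^v`, `v < N φ(p^j)`.
Proof.  `R = ℤ[ζ] = ℤ[X]/Φ` is the ring of integers of the cyclotomic field `ℚ(ζ)`, `ζ` of order `p^j`
(Mathlib: `IsCyclotomicExtension.Rat.isIntegralClosure_adjoin_singleton_of_prime_pow`; `Φ` is monic and the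
minimal polynomial of `ζ`).  `λ = ζ - 1` is a prime element of norm `± p` (up to sign; Mathlib:
`IsPrimitiveRoot.zeta_sub_one_prime`) and `p = unit * λ^φ(p^j)`.  Let `y = f(ζ)`.  If `λ^(N φ) ∣ y` then `p^N ∣ y` and
the first case holds.  Otherwise `y = λ^v y'`, `v < N φ`, `λ ∤ y'`.  The conjugates of `λ` are associated to `λ`, so
`λ` does not divide the norm of `y'` (the product of its conjugates), so `p ∤ N(y')` and
`N(y) = ± p^v N(y')`; `N(y)` is a multiple of `y` in `R` (the other conjugates). -/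
def S_CY : Prop := ∀ (p : ℕ) [Fact p.Prime] (j N : ℕ), 1 ≤ j → ∀ f : ℤ[X],
  (∃ h k : ℤ[X], f = C ((p : ℤ) ^ N) * h + cyclotomic (p ^ j) ℤ * k) ∨
  ∃ (g k : ℤ[X]) (v : ℕ) (c : ℤ), v < N * Nat.totient (p ^ j) ∧ ¬ (p : ℤ) ∣ c ∧
    g * f = C ((p : ℤ) ^ v * c) + cyclotomic (p ^ j) ℤ * k

/-- JOB SG-BD.  An element of the group ring which maps `z` to a `p^n`-th multiple, `z` not divisible by `p`.
Proof.  Put `N = n / φ(p^j)` (integer part).  If the claim fails, `S_CY` gives `g, k, v, c` with `v < N φ(p^j) ≤ n`.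
Apply `g f = p^v c + Φ k` to `z`: `p^n g(T) w = p^v c z`.  Choose integers `a, b` with `c a + p^(n - v) b = 1`; then `p^v z = a p^v c z + b p^n z = p^n (a g(T) w + b z)`, and since there is no
`p`-torsion `z = p^(n-v) (...)`, `n - v ≥ 1`, a contradiction. -/
def S_BD : Prop := ∀ (p : ℕ) [Fact p.Prime] (j n : ℕ), 1 ≤ j → ∀ (A : Type) [AddCommGroup A]
  (T : Module.End ℤ A), (∀ a : A, (p : ℤ) • a = 0 → a = 0) → ∀ (z w : A) (f : ℤ[X]),
  aeval T (cyclotomic (p ^ j) ℤ) z = 0 → aeval T f z = (p : ℤ) ^ n • w → (∀ a : A, z ≠ (p : ℤ) • a) →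
  ∃ h k : ℤ[X], f = C ((p : ℤ) ^ (n / Nat.totient (p ^ j))) * h + cyclotomic (p ^ j) ℤ * k

/-- what the job BD has to prove -/
def J_BD : Prop := S_CY → S_BD

/-- JOB SG-CN.  A polynomial divisible by `p^N` at the roots of unity of the orders `p^j`, `j ∈ J`, `N ≥ #J`, has
a value at `1` divisible by `p^#J`.
Proof.  Induction on `#J` (for all `N`, `f`).  Let `a ∈ J`, `f = p^N h + Φ_a k` (write `Φ_j` for `Φ_{p^j}`);
`f(1) = p^N h(1) + p k(1)`, as `Φ_a(1) = p`.  It suffices that `k` satisfies the hypothesis for `J \ {a}`, `N - 1`.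
Let `j ∈ J`, `j ≠ a`.  There are polynomials with `p = Φ_a q + Φ_j r`: if `a < b` then
`Φ_b(X) = Φ_1(X^(p^(b-1)))` (`Φ_1 = Φ_p = 1 + X + ... + X^(p-1)`) and `X^(p^(b-1)) ≡ 1 mod Φ_a`
(`Φ_a ∣ X^(p^a) - 1`), so `Φ_b ≡ Φ_1(1) = p mod Φ_a`.  Modulo `Φ_j`: `Φ_a k ≡ f - p^N h ≡ p^N h'`, so
`p k ≡ q Φ_a k ≡ p^N h''`: `p k = p^N h'' + Φ_j r'`.  Modulo `p`: `Φ_j r' ≡ 0`, `Φ_j` is monic, so `p ∣ r'`, and
dividing by `p` (`N ≥ #J ≥ 2`) `k = p^(N-1) h'' + Φ_j r''`. -/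
def S_CN : Prop := ∀ (p : ℕ) [Fact p.Prime] (J : Finset ℕ) (N : ℕ) (f : ℤ[X]), (∀ j ∈ J, 1 ≤ j) →
  J.card ≤ N → (∀ j ∈ J, ∃ h k : ℤ[X], f = C ((p : ℤ) ^ N) * h + cyclotomic (p ^ j) ℤ * k) →
  (p : ℤ) ^ J.card ∣ f.eval 1

/-- JOB SG-BL.  A bad layer and the element `x` of the group ring.
Proof.  Let `A = Additive (CU S H 1)` and `T` the action of `g` on it (`CU` is stable under the Galois group since
the embeddings above `S` are permuted: `(σ g)|K = σ|K`).  `A` has no `p`-torsion (`eq_one_of_pow`).  Let `z` be as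
in `Bad`; `Φ_{p^j}(T) z = 0`, because `Φ_{p^j}(X) = ∑_{i<p} X^(i p^(j-1))`.  `f = ∑_{i < p^m} x(g^i) X^i`, and
`f(T) z = ∏_h (h z)^x(h)` (the `g^i`, `i < p^m`, are all elements of the group: `g` has order `p^m`) lies in `CV n`,
i.e. `f(T) z = p^n w`.  `z` is not in `p A`.  Use `S_BD`.  (`f.eval 1 = ∑ x`.) -/
def S_BL : Prop := ∀ (p : ℕ) [Fact p.Prime], p ≠ 2 → ∀ (K H : Type) [Field K]
  [NumberField K] [Field H] [NumberField H] [Algebra K H] [IsGalois K H], Unram H p →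
  ∀ (S : Set (K →+* ℂ_[p])) (g : H ≃ₐ[K] H), (∀ h : H ≃ₐ[K] H, h ∈ Subgroup.zpowers g) →
  ∀ (m n : ℕ), finrank K H = p ^ m → ∀ (x : (H ≃ₐ[K] H) → ℤ),
  (∀ u ∈ CU S H (n + 1), ∏ h : H ≃ₐ[K] H, (h • u) ^ x h ∈ CV S H n) →
  ∃ f : ℤ[X], f.eval 1 = ∑ h : H ≃ₐ[K] H, x h ∧ ∀ j : ℕ, 1 ≤ j → j ≤ m → Bad S g n j →
    ∃ h k : ℤ[X], f = C ((p : ℤ) ^ (n / Nat.totient (p ^ j))) * h + cyclotomic (p ^ j) ℤ * k

/-- what the job BL has to prove -/
def J_BL : Prop := S_BD → S_BL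

/-- JOB SG-CO.  **The number of the bad layers is bounded.**
Proof.  `B` from `S_IN`, `W` from `Pool.Agent.Y44.LC.ann : Pool.Agent.Y18.LC.ANN` for `B`.  Let `n` be the maximum of
`n₀` and `m p^m`.  `ANN` is applied to `P = Gal(H/K)` (commutative, a `p`-group), `M = Hˣ`, `U = CU (n+1)`,
`V = CV n`: `V ≤ U` (`S_PW`), both are stable, `u^(p^n) ∈ V`, finite (`S_FN`), invariants (`S_IN`); compare the
proof of `Pool.Agent.Y18.LC.core`.  It gives `x` with `∏ (h u)^x(h) ∈ CV n` for `u ∈ CU (n+1)`,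
`∑ x = p^w`, `w ≤ W`.  Take `f` from `S_BL`, `J` the set of the `j ∈ [1, m]` with `Bad`, `N = m`:
`n / φ(p^j) ≥ m` since `φ(p^j) ≤ p^m`, `#J ≤ m`.  `S_CN`: `p^#J ∣ f(1) = p^w`, so `#J ≤ w ≤ W`. -/
def S_CO : Prop := ∀ (p : ℕ) [Fact p.Prime], p ≠ 2 → ∀ B : ℕ,
  ∃ W : ℕ, ∀ (K : Type) [Field K] [NumberField K] (S : Set (K →+* ℂ_[p])) (n₀ m : ℕ),
  ∃ n : ℕ, n₀ ≤ n ∧ ∀ (H : Type) [Field H] [NumberField H] [Algebra K H] [IsGalois K H],
  Unram H p → (∃ R : Finset Hˣ, R.card ≤ B ∧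
    ∀ u ∈ CU S H (n + 1), (∀ g : H ≃ₐ[K] H, g • u / u ∈ CV S H n) → ∃ r ∈ R, u / r ∈ CV S H n) →
  ∀ g : H ≃ₐ[K] H, (∀ h : H ≃ₐ[K] H, h ∈ Subgroup.zpowers g) → finrank K H = p ^ m →
  {j : ℕ | 1 ≤ j ∧ j ≤ m ∧ Bad S g n j}.ncard ≤ W

/-- what the job CO has to prove -/
def J_CO : Prop := S_PW → S_RC → S_FN → S_BL → S_CN → S_CO

/-! ## Part D: good layers -/

/-- JOB SG-GI.  Proof (compare `Pool.Agent.Y18.LC.good_ind`).  Induction on `s`.  `z ∈ CU (n+1)`, so by `¬ Bad`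
`z = w^p` with `w ∈ CU 1`; `w` is fixed by `g^(p^j)` and has norm `1` (uniqueness of `p`-th roots of units,
`root_unique`).  If `s = 0` done.  Otherwise `‖σ w - 1‖ = p ‖σ z - 1‖ ≤ p^(-(n+s))` (`S_PW`), `n + s = n + 1 + (s-1)`, so
`w = w'^(p^s)` by induction. -/
def S_GI : Prop := ∀ (p : ℕ) [Fact p.Prime], p ≠ 2 → ∀ (K H : Type) [Field K]
  [NumberField K] [Field H] [NumberField H] [Algebra K H], Unram H p →
  ∀ (S : Set (K →+* ℂ_[p])) (g : H ≃ₐ[K] H) (n j : ℕ), ¬ Bad S g n j → ∀ (s : ℕ),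
  ∀ z ∈ CU S H (n + 1 + s), g ^ p ^ j • z = z →
    ∏ i ∈ Finset.range p, g ^ (i * p ^ (j - 1)) • z = 1 →
    ∃ w ∈ CU S H 1, w ^ p ^ (s + 1) = z ∧ g ^ p ^ j • w = w

/-- what the job GI has to prove -/
def J_GI : Prop := S_PW → S_GI

/-- JOB SG-TR.  From `H` to the layer `E`.
Proof.  `E` is the field fixed by `g^(p^j)` (a cyclic group has one subgroup of each order), and
`Gal(E/K)` is cyclic of order `p^j`, generated by the restriction `ḡ` of `g`.  `τ` has order `p`, so it generates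
the same subgroup as `ḡ^(p^(j-1))`, hence `∏_i τ^i u = ∏_i ḡ^(i p^(j-1)) u`.  For `s` put `M = n + 1 + s`; a unit
`u ∈ CU S E M` gives `z = u ∈ CU S H M` (`S_EX`), fixed by `g^(p^j)`, of relative norm `1`; `S_GI` gives
`w ∈ CU S H 1` fixed by `g^(p^j)` with `w^(p^(s+1)) = z`; so `w ∈ E`, and `w^p` is a unit of `E` with
`(w^p)^(p^s) = u`. -/
def S_TR : Prop := ∀ (p : ℕ) [Fact p.Prime], p ≠ 2 → ∀ (K H : Type) [Field K]
  [NumberField K] [Field H] [NumberField H] [Algebra K H] [IsGalois K H], Unram H p →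
  ∀ (S : Set (K →+* ℂ_[p])) (g : H ≃ₐ[K] H), (∀ h : H ≃ₐ[K] H, h ∈ Subgroup.zpowers g) →
  ∀ (m n j : ℕ), finrank K H = p ^ m → 1 ≤ j → j ≤ m → ¬ Bad S g n j →
  ∀ (E : IntermediateField K H), finrank K E = p ^ j → ∀ τ : E ≃ₐ[K] E, orderOf τ = p → TopRel S τ

/-- what the job TR has to prove -/
def J_TR : Prop := S_EX → S_GI → S_TR

/-- JOB SG-DE.  Descent of a relation between logarithms from `ℂ_p` to `ℤ_p`, for a place-closed set of
embeddings (compare `Pool.Agent.Y419.LC.LcpP.descent`, where `S` is the set of all embeddings; its lemmas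
`exists_c`, `exists_inv`, `emb_coord` are used).
Proof.  (a) By `S_CR` (`a = 1`, `b = 0`) there are `e_k ∈ 𝓞 E` with `σ e_k → 1` for `σ ∈ S`, `→ 0` for `σ ∉ S`.  Let `P_k` be
the integral matrix of the multiplication by `e_k` in the integral basis `ω`, `e_k ω_j = ∑_i P_k(i,j) ω_i`.
By `exists_inv` its entries are fixed `ℂ_p`-linear combinations of the `σ(e_k) σ(ω_j)`, so they converge in
`ℂ_p`, and since they are integers in `ℚ_p` (complete, isometrically embedded), to `P(i,j) ∈ ℚ_p`.  For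
`t ∈ ℂ_p^J` and all `σ`: `∑_i (P t)_i σ(ω_i) = lim σ(e_k) ∑_j t_j σ(ω_j)`, which is `∑_j t_j σ(ω_j)` for `σ ∈ S` and `0`
for `σ ∉ S`.  By `exists_inv` it follows: `P t = 0` if and only if `∑_j t_j σ(ω_j) = 0` for all `σ ∈ S`.
(b) `L(σ ε_i) = ∑_j c_ij σ(ω_j)` with `c_ij ∈ ℚ_p` (`exists_c`).  `t_j = ∑_i a_i c_ij` satisfies `P t = 0`.  Let
`i₀` with `a_(i₀) ≠ 0` and `φ : ℂ_p → ℚ_p` be `ℚ_p`-linear with `φ(a_(i₀)) ≠ 0`.  Applying `φ` to the equation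
`P t = 0` (`P`, `c` have entries in `ℚ_p`) gives the same equation for `φ(a_i)` instead of `a_i`, so
`∑_i φ(a_i) L(σ ε_i) = 0` for `σ ∈ S`.  Divide by the `φ(a_i)` of maximal norm. -/
def S_DE : Prop := ∀ (p : ℕ) [Fact p.Prime] (E : Type) [Field E] [NumberField E]
  (S : Set (E →+* ℂ_[p])), PlaceClosed S → ∀ (L : ℂ_[p] → ℂ_[p]),
  Pool.Agent.W289.SL.IsIwasawaLog p L → ∀ (r : ℕ) (ε : Fin r → (𝓞 E)ˣ),
  (∀ i, (p : 𝓞 E) ^ 4 ∣ ((ε i : 𝓞 E) - 1)) → ∀ a : Fin r → ℂ_[p], a ≠ 0 →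
  (∀ σ ∈ S, ∑ i, a i * L (σ ((ε i : 𝓞 E) : E)) = 0) →
  ∃ b : Fin r → PadicInt p, (∃ i, b i = 1) ∧ ∀ σ ∈ S,
    ∑ i, algebraMap ℚ_[p] ℂ_[p] (b i : ℚ_[p]) * L (σ ((ε i : 𝓞 E) : E)) = 0

/-- what the job DE has to prove -/
def J_DE : Prop := S_CR → S_DE

/-- JOB SG-SL.  **A good layer satisfies the Sigma-Leopoldt conjecture for faithful characters.**
Proof (compare `Pool.Agent.Y419.LC.lcp`, `indep_of_leopoldt`).  Let `x ∈ ℂ_p ⊗ 𝓞_E^×` be in the `χ`-part, killed by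
the logarithms above `S`, `x ≠ 0`.
(1) `ν = ∑_{i<p} τ^i` kills `x`, since `χ(τ) ≠ 1` is a `p`-th root of unity.  Write `x = ∑ c_l ⊗ u_l`; then
`p x = (p - ν) x = ∑ c_l ⊗ (u_l^p / ν(u_l))`, and the units `u_l^p / ν(u_l)` have norm `ν = 1` (`τ^p = 1`).  Raising to a
power `n ≥ 1` with `u^n ≡ 1 mod p^4` for all units (`exists_pow_U4`) we get `x = ∑_{i<r} a_i ⊗ ε_i` with units
`ε_i ≡ 1 mod p^4`, `ν(ε_i) = 1`.  Take such a representation with `r` minimal.  Then the `ε_i` are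
multiplicatively independent: if `∏ ε_i^(k_i) = 1`, `k_1 ≠ 0` say, then
`1 ⊗ ε_1 = - ∑_{i>1} (k_i/k_1) ⊗ ε_i` in `ℂ_p ⊗ 𝓞_E^×` and `r` could be made smaller.  `a ≠ 0`, as `x ≠ 0`.
(2) Let `S_E` be the set of the embeddings of `E` above `S`; it is place-closed.  `S_DE` gives `b` with
`b_(i₁) = 1` and `∑ b_i L(σ ε_i) = 0` for `σ ∈ S_E`.  Choose integers `m_(k,i) → b_i` (`exists_seq`) and put
`u_k = ∏ ε_i^(m_(k,i))`: `ν(u_k) = 1`, `L(σ u_k) → 0`, so `σ u_k → 1` for `σ ∈ S_E` (`dist_le`; `u_k ≡ 1 mod p^4`).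
For every `s`, for large `k`, `TopRel` gives `u_k = w^(p^s)` with a unit `w`.
(3) The group of the units is finitely generated, let `Λ` be the subgroup generated by the `ε_i` and `h ≥ 1`
with `v^h ∈ Λ` for all units `v` some power of which lies in `Λ` (torsion of a finitely generated group).
`w^h = ∏ ε_i^(d_i)`, so `∏ ε_i^(h m_(k,i)) = u_k^h = ∏ ε_i^(p^s d_i)` and `h m_(k,i₁) = p^s d_(i₁)`.  But
`m_(k,i₁) → 1` is prime to `p` for large `k`, so `p^s ∣ h` for all `s`, a contradiction. -/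
def S_SL : Prop := ∀ (p : ℕ) [Fact p.Prime], p ≠ 2 → ∀ (K E : Type) [Field K]
  [NumberField K] [Field E] [NumberField E] [Algebra K E] [IsGalois K E] (S : Set (K →+* ℂ_[p])),
  PlaceClosed S → ∀ τ : E ≃ₐ[K] E, orderOf τ = p → TopRel S τ →
  ∀ χ : (E ≃ₐ[K] E) →* ℂ_[p]ˣ, Function.Injective χ →
  Pool.Agent.W289.SL.SigmaLeopoldt p K E S χ

/-- what the job SL has to prove -/
def J_SL : Prop := S_DE → S_SL

end Pool.Agent.Q5.SG
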