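import Pool.Agent.Q5.SG.Stm

/-!
# Project SG (helper5), second part: existence of the primes `𝔮` and of the extensions
-/

set_option autoImplicit false
set_option linter.unusedSectionVars false

namespace Pool.Agent.Q5.SG

open NumberField IsDedekindDomain Module Pool.Agent.Y18.LC Polynomial Filter Topology

/-! ## Part E: units of `K`, the element `β` -/

/-- JOB SG-UK.  Leopoldt's conjecture for `F` and the units of the CM field `K`.
Proof.  `Pool.Agent.Y944.LC.ta : Pool.Agent.Y18.LC.TA` gives `Top F p` (no `p`-torsion, as `F` is totally real), so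
there is an `M` such that all units `v` of `F` with `p^M ∣ v - 1` are `p`-th powers of units.  Put `n₁ = M`.
Let `c` be the nontrivial automorphism of `K/F` and `N` the number of the roots of unity in `K`, which is prime
to `p` (`no_torsion`).  For a unit `u` of `K` all absolute values of `u / c u` are `1` (the complex
conjugation of every embedding `K → ℂ` is induced by `c`), so it is a root of unity, `u^N = c u^N ∈ F` (compare
Mathlib, `NumberField.IsCMField`, or `Pool.Agent.Y419.LC.SIG`).  Let `u ∈ CU S K (n₁+1)`, `v = u^N`, a unit of `F`.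
For `σ ∈ S`, `‖σ v - 1‖ ≤ p^(-(n₁+1))`, and for `σ ∉ S`, `σ ∘ c ∈ S` (`IsCMType`) and `σ v = σ (c v)`, so the same holds
for all embeddings of `K`, hence (every embedding of `F` extends) of `F`.  So `y = (v - 1)/p^M` satisfies
`‖τ y‖ ≤ 1` for all `τ : F → ℂ_p`, and `p^M y` is integral; so `y` is integral (its characteristic
polynomial `∏ (X - τ y)` has rational coefficients which are in `ℤ_p` and in `ℤ[1/p]`; or with `S_PS`:
`v(y) ≤ 1` at all primes).  So `v = w^p`, and `u^N = w^p`, `gcd (N, p) = 1` gives that `u` is a `p`-th power of a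
unit. -/
def S_UK : Prop := ∀ (p : ℕ) [Fact p.Prime], p ≠ 2 → ∀ (F K : Type) [Field F] [NumberField F]
  [Field K] [NumberField K] [IsTotallyReal F] [IsTotallyComplex K] [Algebra F K], finrank F K = 2 →
  Unram K p → Pool.Agent.H637R2.Leo.Leopoldt F p → ∀ S : Set (K →+* ℂ_[p]),
  Pool.Agent.W289.SL.IsCMType p F K S → ∃ n₁ : ℕ, ∀ u ∈ CU S K (n₁ + 1), ∃ w ∈ EU K, w ^ p = u

/-- JOB SG-DG.  The ideal `𝔖 = {a : ‖σ a‖ < 1 for all σ ∈ S}` has norm `p^d`, `d = [F : ℚ]`.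
Proof.  Let `c ≠ 1` be the automorphism of `K/F`; `c 𝔖 = {a : ‖σ a‖ < 1 for all σ ∉ S}` (`IsCMType`).  `𝔖 ∩ c 𝔖` is
the set of the `a` lying in all `P_σ = {a : ‖σ a‖ < 1}`; every prime above `p` is a `P_σ` (`S_PS`), so this is the
radical of `(p)`, i.e. `(p)`.  `𝔖 + c 𝔖 = 𝓞 K`: a prime containing both contains (finite intersections) some
`P_σ`, `σ ∈ S`, and some `P_τ`, `τ ∉ S`, is equal to both, so `‖σ x‖ = ‖τ x‖` for all `x` by `S_AB`, and `τ ∈ S` by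
`PlaceClosed`, a contradiction.  So `N(𝔖)^2 = N(𝔖) N(c 𝔖) = N(p) = p^(2d)`. -/
def S_DG : Prop := ∀ (p : ℕ) [Fact p.Prime] (F K : Type) [Field F] [NumberField F]
  [Field K] [NumberField K] [IsTotallyReal F] [IsTotallyComplex K] [Algebra F K], finrank F K = 2 →
  Unram K p → ∀ S : Set (K →+* ℂ_[p]), Pool.Agent.W289.SL.IsCMType p F K S → PlaceClosed S →
  ∃ I : Ideal (𝓞 K), (∀ a : 𝓞 K, a ∈ I ↔ ∀ σ ∈ S, ‖σ (a : K)‖ < 1) ∧
    Ideal.absNorm I = p ^ finrank ℚ F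

/-- what the job DG has to prove -/
def J_DG : Prop := S_PS → S_AB → S_DG

/-- JOB SG-BT.  The element `β`.
Proof.  `A_k = {x ∈ Kˣ : Cl S k x}`, `k ≥ 1`, `𝔖` as in `S_DG`, `d = [F : ℚ]`.
(1) `#(A_k / A_(k+1)) ≤ p^d`: for `x ∈ A_k`, `x = 1 + p^k y`, `‖σ y‖ ≤ 1` for `σ ∈ S`; there is a `b ∈ 𝓞 K` with
`‖σ (y - b)‖ < 1` for `σ ∈ S` (`y = a / s` with `s ∈ 𝓞 K`, `‖σ s‖ = 1` for `σ ∈ S`, and `s` is invertible modulo `𝔖`); the
class of `x` is determined by `b mod 𝔖` (`‖σ (y - y')‖ < 1` implies `≤ 1/p`, `S_SM`; and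
`‖σ (x/x' - 1)‖ = ‖σ (x - x')‖`).  (2) For `k = 1` all classes `b mod 𝔖` occur and are represented by the
`1 + p b ∈ 𝓞 K`; so there are `p^d` classes in `A_1 / A_2`, represented by elements of `𝓞 K`.
(3) `x ↦ x^(p^(n-1))` induces an injective map `A_1/A_2 → A_n/A_(n+1)` (`S_PW`: `‖z^(p^(n-1)) - 1‖ = p^(-(n-1)) ‖z - 1‖`),
so it is bijective.
(4) Suppose that for all nonzero `β ∈ 𝓞 K` with `Cl S 1 β` there is a unit `ε` with `ε β^(p^(n-1)) ∈ A_(n+1)`.  Then by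
(3) every class in `A_n/A_(n+1)` contains a unit, so `#(E_n/E_(n+1)) = p^d`, `E_k` the group of the units in
`A_k`.  But `E_n^p ⊆ E_(n+1)` (`S_PW`) and `#(E_n/E_n^p) ≤ p^(d-1)`: `E_n` is a finitely generated abelian group
without `p`-torsion (`no_torsion`) of rank at most the unit rank `d - 1` of `K` (`2 d = [K : ℚ]`, `K` totally
complex).  Contradiction.
(5) So there is a `β` with `ε β^(p^(n-1)) ∉ A_(n+1)` for all units `ε`.  Let `ε β^j ∈ A_(n+1)`, `j = p^a j'`, `p ∤ j'`,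
`a < n` (or `j = 0`, fine).  Raise to the power `p^(n-1-a)`: `ε' β^(p^(n-1) j') ∈ A_(n+1)`; choose `j' x + p y = 1` and
raise to the power `x`; since `β^(p^n) ∈ A_(n+1)` we get `ε'' β^(p^(n-1)) ∈ A_(n+1)`, a contradiction. -/
def S_BT : Prop := ∀ (p : ℕ) [Fact p.Prime], p ≠ 2 → ∀ (F K : Type) [Field F] [NumberField F]
  [Field K] [NumberField K] [IsTotallyReal F] [IsTotallyComplex K] [Algebra F K], finrank F K = 2 →
  Unram K p → ∀ S : Set (K →+* ℂ_[p]), Pool.Agent.W289.SL.IsCMType p F K S → PlaceClosed S →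
  ∀ n : ℕ, 1 ≤ n → ∃ β : 𝓞 K, β ≠ 0 ∧ Cl S 1 (β : K) ∧
    ∀ ε ∈ EU K, ∀ j : ℤ, Cl S (n + 1) ((ε : K) * (β : K) ^ j) → (p : ℤ) ^ n ∣ j

/-- what the job BT has to prove -/
def J_BT : Prop := S_SM → S_PW → S_DG → S_BT

/-- JOB SG-CP.  `CondQ` for principal primes `𝔮 = (π)`, `π` close to `β`.
Proof.  Let `a ∈ QU 𝔮`, `Cl S (n₀+1) a`, `j` the order of `a` at `𝔮`, `ε = a / π^j`, a unit.  Elements which are close
to `1` form a group, so `ε β^j = a (β/π)^j` is `p^(n₀+1)`-close and `p^n₀ ∣ j`.  `π = (π/β) β` is `p`-close, so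
`π^(p^n₀)` and `π^j` are `p^(n₀+1)`-close (`S_PW`), so `ε` is `p^(n₀+1)`-close and `ε = w^p`.  `p ∣ j` as `n₀ ≥ 1`:
`a = (w π^(j/p))^p`. -/
def S_CP : Prop := ∀ (p : ℕ) [Fact p.Prime], p ≠ 2 → ∀ (K : Type) [Field K] [NumberField K]
  (S : Set (K →+* ℂ_[p])) (n₁ n₀ : ℕ), n₁ ≤ n₀ → 1 ≤ n₀ →
  (∀ u ∈ CU S K (n₁ + 1), ∃ w ∈ EU K, w ^ p = u) → ∀ β : Kˣ, Cl S 1 (β : K) →
  (∀ ε ∈ EU K, ∀ j : ℤ, Cl S (n₀ + 1) ((ε : K) * (β : K) ^ j) → (p : ℤ) ^ n₀ ∣ j) →
  ∀ (𝔮 : HeightOneSpectrum (𝓞 K)) (π : Kˣ), 𝔮.valuation K (π : K) = WithZero.exp (-1 : ℤ) →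
  π ∈ QU 𝔮 → Cl S (n₀ + 1) ((π : K) / β) → CondQ S 𝔮 n₀

/-- what the job CP has to prove -/
def J_CP : Prop := S_PW → S_CP

/-! ## Part F: the prime `𝔮` (class field theory, Chebotarev) -/

open Pool.Agent.Q92.AR (Dv prin Pr Ray RayD art nmD nu Cong Pos frob IsFrobenius Unramified)

/-- JOB SG-CB.  Chebotarev's theorem with primes of degree one (see the docstring of `S_Cheb` in
`Pool.Agent.Q92.AR.Stm2` and its proof `Pool.Agent.Q14.AR.cheb`, where the primes found have degree one;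
`Pool.Agent.W401.Cheb.chebotarev`). -/
def S_CB : Prop := ∀ (F M : Type) [Field F] [NumberField F] [Field M] [NumberField M] [Algebra F M]
  [IsGalois F M] (g : M ≃ₐ[F] M) (B : Set (HeightOneSpectrum (𝓞 F))), B.Finite →
  ∃ v : HeightOneSpectrum (𝓞 F), v ∉ B ∧ (Ideal.absNorm v.asIdeal).Prime ∧ Unramified M v ∧
    IsFrobenius v g

/-- JOB SG-XF.  One Galois extension `M/K` for all characters of the ray class group modulo `N`, containing a
given field `K'`.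
Proof.  The restrictions to `Pr K N` of the `χ` which kill `Ray K N` factor through the finite group
`Pr K N / RayD K N` (`S_Fin`, `all_Fin`; note `RayD K N ≤ Pr K N`), so there are finitely many,
`χ_1, ..., χ_r`.  For each of them `all_EXI` gives `M_i`, `ψ_i`, `N_i` (`IsArt`).  Let `M` be a number field,
Galois over `K`, containing all `M_i` and `K'` (embed all in an algebraic closure of `K`; the normal closure
of the composite), `N'` a common multiple of the `N_i` and of the number from `S_RF` for `M/K` (`S_RF` is proved: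
`Pool.Agent.Q280.AR.rF`).  `ψ` is the inflation of `ψ_i` (`AlgEquiv.restrictNormalHom`); its Artin
character is the same on `Pr K N'` (`S_FR` (1), `Pool.Agent.Q225.AR.fr`).  If `χ = χ_i` on `Pr K N` then also
on `Pr K N'`. -/
def S_XF : Prop := ∀ (K K' : Type) [Field K] [NumberField K] [Field K'] [NumberField K']
  [Algebra K K'] (N : ℕ), N ≠ 0 → ∃ (M : Type) (_ : Field M) (_ : NumberField M) (_ : Algebra K M)
  (_ : IsGalois K M) (_ : Algebra K' M) (_ : IsScalarTower K K' M) (N' : ℕ), N' ≠ 0 ∧ N ∣ N' ∧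
  Pool.Agent.Q92.AR.Ram K M N' ∧ ∀ χ : Dv K →+ Additive ℂˣ, (∀ x ∈ Ray K N, χ (prin x) = 0) →
    ∃ ψ : (M ≃ₐ[K] M) →* ℂˣ, ∀ D ∈ Pr K N', art ψ D = χ D

/-- JOB SG-KP.  Proof.  The units of `𝓞 K` are finitely generated; let `K'` be the splitting field over `K` of
`(X^n - 1) ∏ (X^n - u_i)`, `u_i` generators, `n = p^m`. -/
def S_KP : Prop := ∀ (K : Type) [Field K] [NumberField K] (n : ℕ), 0 < n →
  ∃ (K' : Type) (_ : Field K') (_ : NumberField K') (_ : Algebra K K') (ζ : K') (r : (𝓞 K)ˣ → K'),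
    IsPrimitiveRoot ζ n ∧ ∀ u : (𝓞 K)ˣ, r u ^ n = algebraMap K K' ((u : 𝓞 K) : K)

/-- JOB SG-KU.  Characters of `Gal(M/K)` trivial on the group of `K(ζ, r(u))` are trivial on that of `K(ζ)`.
Proof.  `m ≥ 1` (otherwise `ζ = 1`, `r u = u`).  Let `a ζ = ζ`; then `a (r u) = ζ^e(u) r u`.  For `g` with
`g ζ = ζ^κ` one computes `g a g⁻¹ (r u) = ζ^(κ e(u)) r u` (`g⁻¹ (r u) = ζ^b r u`, so `g (r u) = ζ^(-κ b) r u`), which is
`a^κ (r u)`; so `ψ(a) = ψ(g a g⁻¹) = ψ(a)^κ`.  And `ψ(a)^(p^m) = 1`, as `a^(p^m)` fixes `ζ` and the `r u`.  `K` contains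
no primitive `p`-th root of unity (`no_torsion`), so some `g ∈ Gal(M/K)` does not fix `ζ^(p^(m-1))`, and then
`κ ≢ 1 mod p`.  `ψ(a)^(κ-1) = 1 = ψ(a)^(p^m)` gives `ψ(a) = 1`. -/
def S_KU : Prop := ∀ (p : ℕ) [Fact p.Prime], p ≠ 2 → ∀ (K M : Type) [Field K] [NumberField K]
  [Field M] [NumberField M] [Algebra K M] [IsGalois K M], Unram K p → ∀ (m : ℕ) (ζ : M)
  (r : (𝓞 K)ˣ → M), IsPrimitiveRoot ζ (p ^ m) →
  (∀ u : (𝓞 K)ˣ, r u ^ p ^ m = algebraMap K M ((u : 𝓞 K) : K)) → ∀ ψ : (M ≃ₐ[K] M) →* ℂˣ,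
  (∀ g : M ≃ₐ[K] M, g ζ = ζ → (∀ u, g (r u) = r u) → ψ g = 1) → ∀ g : M ≃ₐ[K] M, g ζ = ζ → ψ g = 1

/-- JOB SG-SW.  Moving a divisor.
Proof.  For the primes `v ∣ N'`, `v ∤ N` let `a_v = max (-v(γ), 0)`, `b_v = max (v(γ), 0)` (`v(γ)` the order).  By the
Chinese remainder theorem there are `y, z ∈ 𝓞 K`, `≡ 1 mod N`, of order exactly `a_v`, `b_v` at these `v`, and of
order `0` at the primes dividing `N`; `x = y / z`.  There is no real embedding, so `Pos` is empty. -/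
def S_SW : Prop := ∀ (K : Type) [Field K] [NumberField K] [IsTotallyComplex K] (N N' : ℕ), N' ≠ 0 →
  N ∣ N' → ∀ γ : Kˣ, (∀ v : HeightOneSpectrum (𝓞 K), (N : 𝓞 K) ∈ v.asIdeal →
    v.valuation K (γ : K) = 1) → ∃ x ∈ Ray K N, prin (γ * x) ∈ Pr K N'

/-- JOB SG-CH.  The characters of the ray class group separate its elements.
Proof.  `Pr K N / RayD K N` is finite (`all_Fin`), its characters with values in `ℂˣ` separate points (Mathlib), and
a character of it gives one of `Dv K` (zero at the primes dividing `N`).  `RayD K N` is the image of the group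
`Ray K N` under `prin`. -/
def S_CH : Prop := ∀ (K : Type) [Field K] [NumberField K] (N : ℕ), N ≠ 0 → ∀ D ∈ Pr K N,
  (∀ χ : Dv K →+ Additive ℂˣ, (∀ x ∈ Ray K N, χ (prin x) = 0) → χ D = 0) → ∃ x ∈ Ray K N, prin x = D

/-- JOB SG-CC.  For a character `ψ` of `Gal(M/K)` which is trivial on the automorphisms fixing `ζ` (of order
`p^m`), the values of the Artin character on `D` and on `c D` agree, `c` an automorphism of `K`.
Proof.  `D` is a sum of primes `v ∤ N'`; `v` and `c v` have the same norm `q`, and `frob M v`, `frob M (c v)`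
both map `ζ` to `ζ^q` (`ζ^q` and `g ζ` are roots of unity of order dividing `p^m`, congruent modulo a prime
not dividing `p`, so equal).  So `ψ` takes the same value on both.  For `D = prin γ`, `c D = prin (c γ)`. -/
def S_CC : Prop := ∀ (p : ℕ) [Fact p.Prime] (K M : Type) [Field K] [NumberField K]
  [Field M] [NumberField M] [Algebra K M] [IsGalois K M] (m : ℕ) (ζ : M), IsPrimitiveRoot ζ (p ^ m) →
  ∀ (ψ : (M ≃ₐ[K] M) →* ℂˣ), (∀ g : M ≃ₐ[K] M, g ζ = ζ → ψ g = 1) → ∀ (N' : ℕ), N' ≠ 0 → p ∣ N' →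
  Pool.Agent.Q92.AR.Ram K M N' → ∀ (c : K ≃+* K) (γ : Kˣ), prin γ ∈ Pr K N' →
  art ψ (prin (Units.map (c : K →* K) γ)) = art ψ (prin γ)

/-- JOB SG-TG.  **The target prime**: infinitely many principal primes `𝔮` with a generator in a given class
modulo `p^k`, such that all units are `p^m`-th powers modulo `𝔮`.
Proof.  `N = p^k`, `K'`, `ζ`, `r` from `S_KP` (`n = p^m`), `M`, `N'` from `S_XF` for `K'` and `N`; view `ζ`, `r` in `M`.
`G = Gal(M/K)`, `G' = {g : g ζ = ζ, g (r u) = r u}`.  Let `X` be the group of the characters `χ` of `Dv K` which kill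
`Ray K N`, restricted to `Pr K N'` (a finite group), `χ ↦ ψ_χ` as in `S_XF`; `ψ_χ` is determined by `χ` on `Pr K N'`
(every element of `G` is a Frobenius element of a prime not dividing `N'`, `S_CB`), so `χ ↦ ψ_χ` is a
homomorphism from `X` to the characters of `G`.
(1) Let `ψ_χ` be trivial on `G'`.  Then it is trivial on `{g : g ζ = ζ}` (`S_KU`).  Choose `x₀ ∈ Ray K N` with
`prin (γ x₀) ∈ Pr K N'` (`S_SW`); `c x₀ ∈ Ray K N`.  `χ(prin (c γ) ) = χ(prin (c (γ x₀))) = χ(prin (γ x₀)) = χ(prin γ)` by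
`S_CC`.  So `χ(D) = 0` for `D = prin γ - prin (c γ)`.
(2) By duality there is an `a ∈ G'` with `ψ_χ(a) = χ(D)` for all `χ`: the image of `G' → Hom(X, ℂˣ)` is a
subgroup; if `χ ↦ χ(D)` were not in it, there would be a character of the finite group `Hom(X, ℂˣ)`, i.e. (double
duality) an element `χ` of `X`, trivial on the image of `G'` but with `χ(D) ≠ 0`, contradicting (1).
(3) `S_CB` gives `𝔮 ∉ B`, `𝔮 ∤ N' p`, of prime norm `q`, with Frobenius element `a`: `χ(𝔮) = ψ_χ(a) = χ(D)` for all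
`χ`, so `𝔮 - D = prin x`, `x ∈ Ray K N` (`S_CH`).  Let `w` be the prime of `M` above `𝔮` with `a y ≡ y^q mod w`.
`a ζ = ζ`: `ζ^q ≡ ζ mod w` and `w ∤ p` imply `p^m ∣ q - 1`.  `a (r u) = r u`: `(r u)^q ≡ r u mod w`, so `r u` is
congruent modulo `w` to a `y ∈ 𝓞 K` (the solutions of `X^q = X` in the residue field of `w` are the residue
field of `𝔮`), and `u ≡ y^(p^m)` modulo `w`, hence modulo `𝔮`. -/
def S_TG : Prop := ∀ (p : ℕ) [Fact p.Prime], p ≠ 2 → ∀ (K : Type) [Field K] [NumberField K]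
  [IsTotallyComplex K], Unram K p → ∀ (c : K ≃+* K) (γ : Kˣ),
  (∀ v : HeightOneSpectrum (𝓞 K), (p : 𝓞 K) ∈ v.asIdeal → v.valuation K (γ : K) = 1) →
  ∀ (k m : ℕ), 1 ≤ k → ∀ B : Set (HeightOneSpectrum (𝓞 K)), B.Finite →
  ∃ 𝔮 : HeightOneSpectrum (𝓞 K), 𝔮 ∉ B ∧ ∃ x : Kˣ, (Ideal.absNorm 𝔮.asIdeal).Prime ∧
    p ^ m ∣ Ideal.absNorm 𝔮.asIdeal - 1 ∧
    (∀ u : (𝓞 K)ˣ, ∃ y : 𝓞 K, (u : 𝓞 K) - y ^ p ^ m ∈ 𝔮.asIdeal) ∧ Cong (p ^ k) (x : K) ∧
    prin (γ * (Units.map (c : K →* K) γ)⁻¹ * x) = Finsupp.single 𝔮 1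

/-- what the job TG has to prove -/
def J_TG : Prop := S_CB → S_XF → S_KP → S_KU → S_SW → S_CH → S_CC → S_TG

/-! ## Part G: the extension `H` -/

/-- JOB SG-CX.  A ray class character modulo `𝔮` of `p`-power order.
Proof.  `q = N(𝔮)`.  Let `κ` be a character of `(𝓞/𝔮)ˣ` of order `p^m`; it kills the units.  On the group
`P₀ = {prin x : x a unit at 𝔮}` put `χ₀(prin x) = κ(x mod 𝔮)` (well defined: `prin x = prin x'` means that `x/x'` is a
unit).  Extend `χ₀` to a homomorphism `χ₁ : Dv K → ℂˣ` (`ℂˣ` is divisible; compare the proof of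
`Pool.Agent.Q285.EX.chev`), with `χ₁(𝔮)` of finite order: e.g. first to the divisors prime to `𝔮` and then by `0`
at `𝔮`.  `h D' ∈ P₀` for `D'` prime to `𝔮` (`h` class number; a generator of an ideal prime to `𝔮` is a unit
at `𝔮`), so `h p^m χ₁ = 0`.  Let `h p^m = f p^M`, `p ∤ f`, `χ = f χ₁`. -/
def S_CX : Prop := ∀ (p : ℕ) [Fact p.Prime] (K : Type) [Field K] [NumberField K]
  (𝔮 : HeightOneSpectrum (𝓞 K)) (m : ℕ), 1 ≤ m → (Ideal.absNorm 𝔮.asIdeal).Prime →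
  p ^ m ∣ Ideal.absNorm 𝔮.asIdeal - 1 →
  (∀ u : (𝓞 K)ˣ, ∃ y : 𝓞 K, (u : 𝓞 K) - y ^ p ^ m ∈ 𝔮.asIdeal) →
  ∃ χ : Dv K →+ Additive ℂˣ, (∀ x : Kˣ, 𝔮.valuation K ((x : K) - 1) < 1 → χ (prin x) = 0) ∧
    (∃ M : ℕ, ∀ D, p ^ M • χ D = 0) ∧
    ∃ x : Kˣ, 𝔮.valuation K (x : K) = 1 ∧ p ^ (m - 1) • χ (prin x) ≠ 0

/-- JOB SG-LC.  An auxiliary extension, cyclotomic case: `L = K(ζ_q)`, `q = N(𝔮)` prime, `v ∤ q`.
Proof.  `q` is unramified in `K` and totally ramified in `ℚ(ζ_q)`: for a prime `𝔓` of `L` above `𝔮`,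
`e(𝔓|q)` is divisible by `q - 1` and `e(𝔮|q) = 1`, so `e(𝔓|𝔮) ≥ q - 1 ≥ [L : K]`; hence `[L : K] = q - 1`, `𝔓` is the only
prime above `𝔮` and has residue degree `1`.  `L/K` is unramified at `v ∤ q` (`S_Unr`, `Pool.Agent.Q280.AR.unr`). -/
def S_LC : Prop := ∀ (K : Type) [Field K] [NumberField K] (𝔮 v : HeightOneSpectrum (𝓞 K)), v ≠ 𝔮 →
  (Ideal.absNorm 𝔮.asIdeal).Prime → Unram K (Ideal.absNorm 𝔮.asIdeal) →
  ((Ideal.absNorm 𝔮.asIdeal : ℕ) : 𝓞 K) ∉ v.asIdeal →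
  ∃ (L : Type) (_ : Field L) (_ : NumberField L) (_ : Algebra K L),
    finrank K L = Ideal.absNorm 𝔮.asIdeal - 1 ∧ TotRam 𝔮 L ∧
    ∃ w : HeightOneSpectrum (𝓞 L), w.under (𝓞 K) = v ∧
      ¬ v.asIdeal.map (algebraMap (𝓞 K) (𝓞 L)) ≤ w.asIdeal ^ 2

/-- JOB SG-LK.  An auxiliary extension, Kummer case: `v ∣ q`, `v ≠ 𝔮`.
Proof.  Let `n = q - 1`, `y ∈ 𝓞 K` with `y ∈ 𝔮`, `y ∉ 𝔮^2`, `y ∉ v` (Chinese remainder theorem), `L = K(r)`, `r` a root
of `X^n - y`, which is irreducible (Eisenstein at `𝔮`; if `n = 1` take `L = K`).  `𝔮` is totally ramified: for a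
prime `𝔓` above `𝔮`, `n ord(r) = e ord_𝔮(y) = e`, so `n ∣ e ≤ [L : K] = n`, and `e = n` implies that `𝔓` is the only
prime above `𝔮` with residue degree `1`.  `v` is unramified: `n y ∉ v` (`q ∈ v`, so `n = q - 1 ∉ v`), and for `w`
above `v` the inertia / different at `w`: `f'(r) = n r^(n-1)` is a unit at `w`, the different divides `f'(r)`
(Mathlib: `differentIdeal`, `pow_sub_one_dvd_differentIdeal`; or: `X^n - y` is separable modulo `v`, so
in the completion; or by the Galois closure `K(r, ζ_n)` and the criterion `Pool.Agent.Q280.AR`). -/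
def S_LK : Prop := ∀ (K : Type) [Field K] [NumberField K] (𝔮 v : HeightOneSpectrum (𝓞 K)), v ≠ 𝔮 →
  (Ideal.absNorm 𝔮.asIdeal).Prime → ((Ideal.absNorm 𝔮.asIdeal : ℕ) : 𝓞 K) ∈ v.asIdeal →
  ∃ (L : Type) (_ : Field L) (_ : NumberField L) (_ : Algebra K L),
    finrank K L = Ideal.absNorm 𝔮.asIdeal - 1 ∧ TotRam 𝔮 L ∧
    ∃ w : HeightOneSpectrum (𝓞 L), w.under (𝓞 K) = v ∧
      ¬ v.asIdeal.map (algebraMap (𝓞 K) (𝓞 L)) ≤ w.asIdeal ^ 2

/-- JOB SG-NP.  Norms in a totally ramified extension: the norm of a unit at `𝔓` is congruent to an `n`-th power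
modulo `𝔮`, `n = [L : K]`.
Proof.  `x = b / c` with `b, c ∈ 𝓞 L`, not in `𝔓`; `b ≡ b₀`, `c ≡ c₀ mod 𝔓` with `b₀, c₀ ∈ 𝓞 K`, not in `𝔮`.  Let `Ω/K` be
Galois, containing `L`, `Q` a prime of `Ω` above `𝔮`.  For every `K`-embedding `σ : L → Ω` the prime `σ⁻¹(Q)` of `L`
lies above `𝔮`, so it is `𝔓`, and `σ(b - b₀) ∈ Q`.  So the norm of `b`, the product of the `σ b`, is `≡ b₀^n mod Q`,
hence modulo `𝔮`.  `x₀ = b₀ / c₀`. -/
def S_NP : Prop := ∀ (K L : Type) [Field K] [NumberField K] [Field L] [NumberField L] [Algebra K L]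
  (𝔮 : HeightOneSpectrum (𝓞 K)), TotRam 𝔮 L → ∀ x : Lˣ,
  (∀ w : HeightOneSpectrum (𝓞 L), w.under (𝓞 K) = 𝔮 → w.valuation L (x : L) = 1) →
  ∃ x₀ : Kˣ, 𝔮.valuation K (x₀ : K) = 1 ∧
    𝔮.valuation K ((nu K L x : K) / (x₀ : K) ^ finrank K L - 1) < 1

/-- JOB SG-IG.  Inertia groups in an extension which is unramified at one prime.
Proof.  `Ω/K` is Galois, contains `L` and `M`.  Let `W` be a prime of `Ω` above `w`.  The inertia group `I` of `W` in
`Gal(Ω/K)` has order `e(W|v) = e(W|w) e(w|v) = e(W|w)`, the order of the inertia group of `W` in `Gal(Ω/L)`, so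
`I` is contained in `Gal(Ω/L)` and the hypothesis applies to its elements.  The inertia group in `Gal(M/K)`
of the prime of `M` below `W` is the image of `I` (compare the proof of `S_TRV2` of
`Pool.Agent.Q20.EX.Stm2`); as `ψ` is injective it is trivial, so `v` is unramified in `M` (all primes above
`v` are conjugate; a prime with trivial inertia group is unramified). -/
def S_IG : Prop := ∀ (K L M Ω : Type) [Field K] [NumberField K] [Field L] [NumberField L]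
  [Field M] [NumberField M] [Field Ω] [NumberField Ω] [Algebra K L] [Algebra K M] [Algebra K Ω]
  [Algebra L Ω] [Algebra M Ω] [IsScalarTower K L Ω] [IsScalarTower K M Ω] [IsGalois K M]
  [IsGalois K Ω] (ψ : (M ≃ₐ[K] M) →* ℂˣ), Function.Injective ψ →
  ∀ (v : HeightOneSpectrum (𝓞 K)) (w : HeightOneSpectrum (𝓞 L)), w.under (𝓞 K) = v →
  ¬ v.asIdeal.map (algebraMap (𝓞 K) (𝓞 L)) ≤ w.asIdeal ^ 2 →
  (∀ (W : HeightOneSpectrum (𝓞 Ω)) (g : Ω ≃ₐ[L] Ω),
    (∀ x : 𝓞 Ω, W.valuation Ω (g (x : Ω) - (x : Ω)) < 1) →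
    ψ (AlgEquiv.restrictNormal (AlgEquiv.restrictScalars K g) M) = 1) → Unramified M v

/-- JOB SG-BS.  Base change to `L`: if `𝔮` is totally ramified in `L` and `v` has an unramified prime in `L`, then a
character modulo `𝔮` is unramified at `v`.
Proof.  Let `Ω/K` be a Galois number field containing `M` and `L` (with embeddings over `K`), `ψ_Ω` the inflation
of `ψ`, `ψ_L` its restriction to `Gal(Ω/L)`.  Let `N''` be a multiple of `N' N(𝔮)` with `Ram K Ω N''`.  For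
`x ∈ Lˣ`, a unit at `N''`: `art ψ_L (prin x) = art ψ_Ω (nmD K L (prin x)) = art ψ_Ω (prin (nu x))` (`S_RES` of
`Pool.Agent.Q20.EX.Stm2`, proved in the project EX; `S_Nm` (1)) `= χ (prin (nu x))` (`S_FR` (1)).  By `S_NP`,
`nu x = x₀^n y` with `y ≡ 1 mod 𝔮`, so this is `n χ(prin x₀) + χ(prin y) = 0`.  So `TrivAt Set.univ N'' (art ψ_L)`
and `Pool.Agent.Q53.EX.unr : S_UNR` (with `Pool.Agent.Q38.EX.nrm`, `Pool.Agent.Q285.EX.ncg`,
`Pool.Agent.Q111.EX.good`) shows that `ψ_L` is trivial on all inertia groups of `Ω/L`.  `S_IG`. -/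
def S_BS : Prop := ∀ (K L M : Type) [Field K] [NumberField K] [Field L] [NumberField L]
  [Field M] [NumberField M] [Algebra K L] [Algebra K M] [IsGalois K M] (ψ : (M ≃ₐ[K] M) →* ℂˣ),
  Function.Injective ψ → ∀ N' : ℕ, N' ≠ 0 → Pool.Agent.Q92.AR.Ram K M N' →
  ∀ χ : Dv K →+ Additive ℂˣ, (∀ D ∈ Pr K N', art ψ D = χ D) → ∀ 𝔮 : HeightOneSpectrum (𝓞 K),
  (∀ x : Kˣ, 𝔮.valuation K ((x : K) - 1) < 1 → χ (prin x) = 0) → TotRam 𝔮 L →
  (∀ x : Kˣ, 𝔮.valuation K (x : K) = 1 → finrank K L • χ (prin x) = 0) →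
  ∀ (v : HeightOneSpectrum (𝓞 K)) (w : HeightOneSpectrum (𝓞 L)), w.under (𝓞 K) = v →
  ¬ v.asIdeal.map (algebraMap (𝓞 K) (𝓞 L)) ≤ w.asIdeal ^ 2 → Unramified M v

/-- what the job BS has to prove -/
def J_BS : Prop := S_NP → S_IG → S_BS

/-- JOB SG-IJ.  An Artin character comes from an injective character.
Proof.  `M₁` is the subfield of `M` fixed by the kernel of `ψ` (normal), `ψ₁` the induced character; `S_FR` (1)
(`Pool.Agent.Q225.AR.fr`); a prime unramified in `M` is unramified in `M₁` (`Unramified.sub`).  Compare the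
proof of `S_TRV2`. -/
def S_IJ : Prop := ∀ (K M : Type) [Field K] [NumberField K] [Field M] [NumberField M] [Algebra K M]
  [IsGalois K M] (ψ : (M ≃ₐ[K] M) →* ℂˣ) (N : ℕ), N ≠ 0 → Pool.Agent.Q92.AR.Ram K M N →
  ∃ (M₁ : Type) (_ : Field M₁) (_ : NumberField M₁) (_ : Algebra K M₁) (_ : IsGalois K M₁)
    (ψ₁ : (M₁ ≃ₐ[K] M₁) →* ℂˣ), Function.Injective ψ₁ ∧ Pool.Agent.Q92.AR.Ram K M₁ N ∧
    ∀ D ∈ Pr K N, art ψ₁ D = art ψ D

/-- JOB SG-UR.  A ray class character modulo `𝔮` is the Artin character of a character unramified outside `𝔮`.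
Proof.  `all_EXI` for `N = q = N(𝔮)` (`x ≡ 1 mod q` implies `x ≡ 1 mod 𝔮`) and `S_IJ` give `M`, an injective `ψ` and `N'`.
Let `v ≠ 𝔮`.  `S_LC` or `S_LK` gives `L`, and `S_BS` applies: `(q-1) χ(prin x) = χ(prin x^(q-1)) = 0` for `x` a unit at
`𝔮`, as `x^(q-1) ≡ 1 mod 𝔮`. -/
def S_UR : Prop := ∀ (K : Type) [Field K] [NumberField K] (𝔮 : HeightOneSpectrum (𝓞 K)),
  (Ideal.absNorm 𝔮.asIdeal).Prime → Unram K (Ideal.absNorm 𝔮.asIdeal) →
  ∀ χ : Dv K →+ Additive ℂˣ, (∀ x : Kˣ, 𝔮.valuation K ((x : K) - 1) < 1 → χ (prin x) = 0) →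
  ∃ (M : Type) (_ : Field M) (_ : NumberField M) (_ : Algebra K M) (_ : IsGalois K M)
    (ψ : (M ≃ₐ[K] M) →* ℂˣ) (N' : ℕ), Function.Injective ψ ∧ N' ≠ 0 ∧
    Pool.Agent.Q92.AR.Ram K M N' ∧ (∀ D ∈ Pr K N', art ψ D = χ D) ∧ RamOut 𝔮 M

/-- what the job UR has to prove -/
def J_UR : Prop := S_LC → S_LK → S_BS → S_IJ → S_UR

/-- JOB SG-HX.  **The cyclic extension ramified only at `𝔮`.**
Proof.  `χ` from `S_CX`, `M`, `ψ`, `N'` from `S_UR`; `H = M`.  `Gal(M/K)` is isomorphic to a finite subgroup of `ℂˣ`, so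
cyclic.  Every `g` is a Frobenius element of a prime `v ∤ N'` (`Pool.Agent.Q14.AR.cheb`), so
`ψ(g)^(p^M) = 1`, `g^(p^M) = 1`: the order of the group is a power `p^m'`.  Let `x` be as in `S_CX`; there is a
`y ≡ 1 mod 𝔮` with `prin (x y) ∈ Pr K N'` (Chinese remainder theorem; compare `S_SW`), and
`art ψ (prin (x y)) = χ(prin x)` is a product of values of `ψ`, of order `≥ p^m` (a power of `p` not dividing
`p^(m-1)`); so `p^m` divides the order of the group. -/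
def S_HX : Prop := ∀ (p : ℕ) [Fact p.Prime] (K : Type) [Field K] [NumberField K]
  (𝔮 : HeightOneSpectrum (𝓞 K)) (m : ℕ), 1 ≤ m → (Ideal.absNorm 𝔮.asIdeal).Prime →
  Unram K (Ideal.absNorm 𝔮.asIdeal) → p ^ m ∣ Ideal.absNorm 𝔮.asIdeal - 1 →
  (∀ u : (𝓞 K)ˣ, ∃ y : 𝓞 K, (u : 𝓞 K) - y ^ p ^ m ∈ 𝔮.asIdeal) →
  ∃ (H : Type) (_ : Field H) (_ : NumberField H) (_ : Algebra K H) (_ : IsGalois K H)
    (g : H ≃ₐ[K] H) (m' : ℕ), (∀ h : H ≃ₐ[K] H, h ∈ Subgroup.zpowers g) ∧ m ≤ m' ∧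
    finrank K H = p ^ m' ∧ RamOut 𝔮 H

/-- what the job HX has to prove -/
def J_HX : Prop := S_CX → S_UR → S_HX

/-- JOB SG-NR.  Only finitely many primes `𝔮` lie above ramified rational primes.
Proof.  `S_RF` (`Pool.Agent.Q280.AR.rF`) for `ℚ ⊆ K` gives an `N ≠ 0` such that all primes of `ℚ` which ramify in `K`
divide `N` (or use the discriminant of `K`).  If `q = N(𝔮)` is a prime not dividing `N`, `(q)` is a product of
different primes of `K`, so it is radical.  And `q ∣ N` means `N ∈ 𝔮`: finitely many `𝔮`. -/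
def S_NR : Prop := ∀ (K : Type) [Field K] [NumberField K],
  {𝔮 : HeightOneSpectrum (𝓞 K) | (Ideal.absNorm 𝔮.asIdeal).Prime ∧
    ¬ Unram K (Ideal.absNorm 𝔮.asIdeal)}.Finite

end Pool.Agent.Q5.SG
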